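import Pool.Agent.H488.M.RFam

/-!
# Generic families
-/

set_option autoImplicit false

namespace Pool.Agent.H488.M

open Pool.Agent.N743.SS (lenM isLenM lenM_eq le_lenM)

variable {σ : Type} [Fintype σ]

lemma meas_val {θ : σ → ℂ} (h : Meas θ) (P : MvPolynomial σ ℤ) (hP : P ≠ 0) :
    MvPolynomial.aeval θ P ≠ 0 := by
  intro h0
  obtain ⟨κ, c, hc, h⟩ := h (∑ o, P.degreeOf o)
  have hl0 : 0 ≤ lenM P := (isLenM (ι := σ)).nonneg P
  have h1 := h P hP (1 + lenM P) (by linarith) ⟨fun o =>
    Finset.single_le_sum (f := fun o => P.degreeOf o) (fun _ _ => Nat.zero_le _) (Finset.mem_univ o),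
    fun m => (le_lenM P m).trans (by linarith)⟩
  rw [h0, norm_zero, mul_zero] at h1
  linarith

omit [Fintype σ] in
lemma vl_rename (t : ℂ) (θ : σ → ℂ) (g : MvPolynomial σ ℤ) :
    vl (pt t θ) (MvPolynomial.rename some g) = MvPolynomial.aeval θ g := by
  rw [vl, MvPolynomial.aeval_rename]
  rfl

omit [Fintype σ] in
lemma pd_none_rename (g : MvPolynomial σ ℤ) : pd (none : Option σ) (MvPolynomial.rename some g) = 0 := by
  classical
  rw [pd_apply]
  apply MvPolynomial.pderiv_eq_zero_of_notMem_vars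
  intro h
  have h1 := MvPolynomial.vars_rename (some : σ → Option σ) g h
  rw [Finset.mem_image] at h1
  obtain ⟨i, -, hi⟩ := h1
  exact absurd hi (by simp)

omit [Fintype σ] in
lemma pd_some_rename (o : σ) (g : MvPolynomial σ ℤ) :
    pd (some o : Option σ) (MvPolynomial.rename some g) =
      MvPolynomial.rename some (MvPolynomial.pderiv o g) := by
  rw [pd_apply, MvPolynomial.pderiv_rename (Option.some_injective _)]

omit [Fintype σ] in
lemma Wr_one (a : MvPolynomial (Option σ) ℤ) (o : Option σ) : Wr a 1 o = pd o a := by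
  have h1 : pd o (1 : MvPolynomial (Option σ) ℤ) = 0 := by
    rw [pd_apply]; exact MvPolynomial.pderiv_one
  rw [Wr, h1, mul_zero, sub_zero, one_mul]

omit [Fintype σ] in
lemma vl_one {τ : Type} (x : τ → ℂ) : vl x 1 = 1 := by rw [vl, map_one]

/-- a polynomial with vanishing derivatives is constant -/
lemma const_of_pderiv (g : MvPolynomial σ ℤ) (h : ∀ o, MvPolynomial.pderiv o g = 0) :
    ∃ z : ℤ, g = MvPolynomial.C z := by
  classical
  refine ⟨g.coeff 0, ?_⟩
  ext m
  rw [MvPolynomial.coeff_C]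
  split_ifs with hm
  · rw [hm]
  · obtain ⟨o, ho⟩ : ∃ o, m o ≠ 0 := by
      by_contra hcon
      push Not at hcon
      exact hm (by ext o; rw [hcon o]; rfl)
    by_contra hne
    have h1 := congrArg (fun P : MvPolynomial σ ℤ => P.coeff (m - Finsupp.single o 1)) (h o)
    simp only [MvPolynomial.coeff_zero] at h1
    rw [MvPolynomial.coeff_pderiv] at h1
    have e1 : m - Finsupp.single o 1 + Finsupp.single o 1 = m := by
      ext o'
      simp only [Finsupp.coe_add, Finsupp.coe_tsub, Pi.add_apply, Pi.sub_apply]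
      by_cases hoo : o = o'
      · subst hoo
        simp only [Finsupp.single_eq_same]
        omega
      · rw [Finsupp.single_eq_of_ne (Ne.symm hoo)]
        omega
    rw [e1] at h1
    rcases mul_eq_zero.1 h1 with h2 | h2
    · exact hne h2
    · omega

/-- **additive families are generic** -/
theorem generic_add (θ : σ → ℂ) (hθ : Meas θ) {r : ℕ} (g : Fin r → MvPolynomial σ ℤ)
    (hg : ∀ i j, i ≠ j → ∀ z : ℤ, g i - g j ≠ MvPolynomial.C z) (t : ℂ) :
    Generic (fun i => MvPolynomial.X none + MvPolynomial.rename some (g i)) (fun _ => 1) (pt t θ) := by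
  have e0 : ∀ i, pd (none : Option σ) (MvPolynomial.X none + MvPolynomial.rename some (g i)) = 1 := by
    intro i
    rw [map_add, pd_none_rename, pd_apply, MvPolynomial.pderiv_X_self, add_zero]
  have e1 : ∀ i o, pd (some o : Option σ) (MvPolynomial.X none + MvPolynomial.rename some (g i)) =
      MvPolynomial.rename some (MvPolynomial.pderiv o (g i)) := by
    intro i o
    rw [map_add, pd_some_rename, pd_apply, MvPolynomial.pderiv_X_of_ne (by simp), zero_add]
  refine ⟨fun i => ⟨by rw [vl_one]; exact one_ne_zero, none, ?_⟩, fun i j hij => ?_⟩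
  · rw [Wr_one, e0, vl_one]; exact one_ne_zero
  · obtain ⟨o, ho⟩ : ∃ o, MvPolynomial.pderiv o (g j - g i) ≠ 0 := by
      by_contra hcon
      push Not at hcon
      obtain ⟨z, hz⟩ := const_of_pderiv _ hcon
      exact hg j i (Ne.symm hij) z hz
    refine ⟨none, some o, ?_⟩
    rw [Jc, Wr_one, Wr_one, Wr_one, Wr_one, e0, e0, e1, e1, one_mul, mul_one, ← map_sub, ← map_sub,
      vl_rename]
    exact meas_val hθ _ ho

/-- proportional polynomials -/
lemma prop_of_wronskian (f g : MvPolynomial σ ℤ) (hf : f ≠ 0) (hg : g ≠ 0)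
    (h : ∀ o, f * MvPolynomial.pderiv o g = g * MvPolynomial.pderiv o f) :
    ∃ u v : ℤ, u ≠ 0 ∧ v ≠ 0 ∧ MvPolynomial.C u * f = MvPolynomial.C v * g := by
  classical
  let inst : GCDMonoid (MvPolynomial σ ℤ) := UniqueFactorizationMonoid.toGCDMonoid _
  obtain ⟨D, hD⟩ : ∃ D, D = gcd f g := ⟨_, rfl⟩
  obtain ⟨a, ha⟩ : D ∣ f := by rw [hD]; exact gcd_dvd_left _ _
  obtain ⟨b, hb⟩ : D ∣ g := by rw [hD]; exact gcd_dvd_right _ _
  have hD0 : D ≠ 0 := fun h0 => hf (by rw [ha, h0, zero_mul])
  have ha0 : a ≠ 0 := fun h0 => hf (by rw [ha, h0, mul_zero])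
  have hb0 : b ≠ 0 := fun h0 => hg (by rw [hb, h0, mul_zero])
  -- `a`, `b` are coprime
  have hcop : ∀ p, Prime p → p ∣ a → ¬ p ∣ b := by
    intro p hp h1 h2
    have h3 : D * p ∣ gcd f g := dvd_gcd (by rw [ha]; exact mul_dvd_mul_left _ h1)
      (by rw [hb]; exact mul_dvd_mul_left _ h2)
    rw [← hD] at h3
    have h4 : D * p ∣ D * 1 := by rwa [mul_one]
    exact hp.not_isUnit (isUnit_of_dvd_one ((mul_dvd_mul_iff_left hD0).1 h4))
  have hrel : IsRelPrime a b := by
    rw [UniqueFactorizationMonoid.isRelPrime_iff_no_prime_factors ha0]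
    intro p h1 h2 h3
    exact hcop p h3 h1 h2
  have key : ∀ o, a * MvPolynomial.pderiv o b = b * MvPolynomial.pderiv o a := by
    intro o
    have h1 := h o
    rw [ha, hb, Derivation.leibniz, Derivation.leibniz, smul_eq_mul, smul_eq_mul, smul_eq_mul,
      smul_eq_mul] at h1
    have h2 : D * D * (a * MvPolynomial.pderiv o b) = D * D * (b * MvPolynomial.pderiv o a) := by
      linear_combination h1
    exact mul_left_cancel₀ (mul_ne_zero hD0 hD0) h2
  have hconst : ∀ p q : MvPolynomial σ ℤ, p ≠ 0 → IsRelPrime p q →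
      (∀ o, p * MvPolynomial.pderiv o q = q * MvPolynomial.pderiv o p) →
      ∀ o, MvPolynomial.pderiv o p = 0 := by
    intro p q hp hpq hk o
    by_contra hne
    have h1 : p ∣ MvPolynomial.pderiv o p :=
      hpq.dvd_of_dvd_mul_left (by rw [← hk o]; exact dvd_mul_right _ _)
    obtain ⟨s, hs⟩ := h1
    have hs0 : s ≠ 0 := fun h0 => hne (by rw [hs, h0, mul_zero])
    have h2 := MvPolynomial.degreeOf_mul_eq (n := o) hp hs0
    rw [← hs] at h2
    have hpd : p.degreeOf o ≠ 0 := by
      intro h0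
      apply hne
      apply MvPolynomial.pderiv_eq_zero_of_notMem_vars
      intro h3
      rw [MvPolynomial.mem_vars_iff_mem_support] at h3
      obtain ⟨m, hm, hmo⟩ := h3
      have h4 := (MvPolynomial.degreeOf_le_iff.1 h0.le) m hm
      rw [Finsupp.mem_support_iff] at hmo
      omega
    have h3 : (MvPolynomial.pderiv o p).degreeOf o < p.degreeOf o := by
      rw [MvPolynomial.degreeOf_lt_iff (Nat.pos_of_ne_zero hpd)]
      intro m hm
      rw [MvPolynomial.mem_support_iff, MvPolynomial.coeff_pderiv] at hm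
      have h4 := left_ne_zero_of_mul hm
      have h5 := (MvPolynomial.degreeOf_le_iff.1 (le_refl (p.degreeOf o))) _
        (MvPolynomial.mem_support_iff.2 h4)
      simp only [Finsupp.coe_add, Pi.add_apply, Finsupp.single_eq_same] at h5
      omega
    omega
  obtain ⟨u, hu⟩ := const_of_pderiv a (hconst a b ha0 hrel key)
  obtain ⟨v, hv⟩ := const_of_pderiv b (hconst b a hb0 hrel.symm fun o => (key o).symm)
  refine ⟨v, u, fun h0 => hb0 (by rw [hv, h0, map_zero]), fun h0 => ha0 (by rw [hu, h0, map_zero]), ?_⟩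
  rw [ha, hb, hu, hv]
  ring

/-- **multiplicative families are generic** -/
theorem generic_mul (θ : σ → ℂ) (hθ : Meas θ) {r : ℕ} (g : Fin r → MvPolynomial σ ℤ)
    (hg0 : ∀ i, g i ≠ 0)
    (hg : ∀ i j, i ≠ j → ∀ u v : ℤ, u ≠ 0 → v ≠ 0 → MvPolynomial.C u * g i ≠ MvPolynomial.C v * g j)
    (t : ℂ) (ht : t ≠ 0) :
    Generic (fun i => MvPolynomial.X none * MvPolynomial.rename some (g i)) (fun _ => 1) (pt t θ) := by
  have e0 : ∀ i, pd (none : Option σ) (MvPolynomial.X none * MvPolynomial.rename some (g i)) =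
      MvPolynomial.rename some (g i) := by
    intro i
    rw [pd_der, pd_none_rename, pd_apply, MvPolynomial.pderiv_X_self, mul_zero, zero_add, mul_one]
  have e1 : ∀ i o, pd (some o : Option σ) (MvPolynomial.X none * MvPolynomial.rename some (g i)) =
      MvPolynomial.X none * MvPolynomial.rename some (MvPolynomial.pderiv o (g i)) := by
    intro i o
    rw [pd_der, pd_some_rename, pd_apply, MvPolynomial.pderiv_X_of_ne (by simp), mul_zero, add_zero]
  have hX : vl (pt t θ) (MvPolynomial.X none) = t := by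
    rw [vl, MvPolynomial.aeval_X]; rfl
  refine ⟨fun i => ⟨by rw [vl_one]; exact one_ne_zero, none, ?_⟩, fun i j hij => ?_⟩
  · rw [Wr_one, e0, vl_rename]; exact meas_val hθ _ (hg0 i)
  · obtain ⟨o, ho⟩ : ∃ o, g i * MvPolynomial.pderiv o (g j) - g j * MvPolynomial.pderiv o (g i) ≠ 0 := by
      by_contra hcon
      push Not at hcon
      obtain ⟨u, v, hu, hv, huv⟩ := prop_of_wronskian (g i) (g j) (hg0 i) (hg0 j)
        fun o => sub_eq_zero.1 (hcon o)
      exact hg i j hij u v hu hv huv
    refine ⟨none, some o, ?_⟩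
    have e2 : Jc (MvPolynomial.X none * MvPolynomial.rename some (g i)) 1
        (MvPolynomial.X none * MvPolynomial.rename some (g j)) 1 none (some o) =
        MvPolynomial.X none * MvPolynomial.rename some
          (g i * MvPolynomial.pderiv o (g j) - g j * MvPolynomial.pderiv o (g i)) := by
      rw [Jc, Wr_one, Wr_one, Wr_one, Wr_one, e0, e0, e1, e1, map_sub, map_mul, map_mul]
      ring
    rw [e2, vl_mul, hX, vl_rename]
    exact mul_ne_zero ht (meas_val hθ _ ho)

end Pool.Agent.H488.M
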