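import Pool.Agent.H488.M.Di

/-!
# Numbers with a measure of algebraic independence
-/

set_option autoImplicit false

namespace Pool.Agent.H488.M

open Pool.Agent.H596.Q (ev partA partG ev_conj conj_alg ren_coeff ren_degree ren_degree_zero
  ren_degree_le dvd_degree)

/-- a measure is inherited by a subfamily -/
lemma Meas.comp {σ τ : Type} [Fintype σ] [Fintype τ] {θ : τ → ℂ} (h : Meas θ) (f : σ → τ)
    (hf : Function.Injective f) : Meas (fun i => θ (f i)) := by
  intro d
  obtain ⟨κ, c, hc, h⟩ := h d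
  refine ⟨κ, c, hc, fun P hP H hH hB => ?_⟩
  have h1 := h (MvPolynomial.rename f P)
    (by rw [Ne, map_eq_zero_iff _ (MvPolynomial.rename_injective _ hf)]; exact hP) H hH
    ⟨ren_degree_le f hf P d hB.1, ren_coeff f hf P H (by linarith) hB.2⟩
  rw [MvPolynomial.aeval_rename] at h1
  exact h1

/-- exponentials of algebraic numbers -/
theorem meas_exp {n : ℕ} (α : Fin n → ℂ) (hα : ∀ i, IsAlgebraic ℚ (α i))
    (hli : LinearIndependent ℚ α) : Meas fun i => Complex.exp (α i) := by
  intro d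
  obtain ⟨κ, c, hc, h⟩ := partA α hα hli (d + 1) 1
  refine ⟨κ, c, hc, fun P hP H hH hB => ?_⟩
  have hinj : Function.Injective (some : Fin n → Option (Fin n)) := Option.some_injective _
  have hR0 : MvPolynomial.rename (some : Fin n → Option (Fin n)) P ≠ 0 := by
    rw [Ne, map_eq_zero_iff _ (MvPolynomial.rename_injective _ hinj)]; exact hP
  have h1 := h 0 (by simp) (MvPolynomial.rename some P) (MvPolynomial.X none)
    (fun o => (ren_degree_le some hinj P d hB.1 o).trans (Nat.le_succ _))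
    (fun o => by rw [MvPolynomial.degreeOf_X]; split_ifs <;> omega)
    (fun D hD1 _ => dvd_degree D _ hR0 hD1 none (ren_degree_zero some P none (by simp))) H hH
    (ren_coeff some hinj P H (by linarith) hB.2)
    (fun m => by
      classical
      rw [MvPolynomial.coeff_X]; split_ifs <;> simp <;> linarith)
  have e1 : ev 0 α (MvPolynomial.X none) = 0 := by rw [ev, MvPolynomial.aeval_X]; rfl
  have e2 : ev 0 α (MvPolynomial.rename some P) =
      MvPolynomial.aeval (fun i => Complex.exp (α i)) P := by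
    rw [ev, MvPolynomial.aeval_rename]; rfl
  rw [e1, e2, norm_zero, max_eq_left (norm_nonneg _)] at h1
  exact h1

/-- `π` and exponentials of algebraic numbers -/
theorem meas_pi_exp {n : ℕ} (β : Fin n → ℂ) (hβ : ∀ i, IsAlgebraic ℚ (β i))
    (hli : LinearIndependent ℚ (Sum.elim β fun i => (starRingEnd ℂ) (β i))) :
    Meas (Sum.elim (fun _ : Fin 1 => (Real.pi : ℂ)) fun i => Complex.exp (β i)) := by
  intro d
  obtain ⟨κ, c, hc, h⟩ := partG (Real.pi : ℂ) Pool.Agent.TH456.TM.measT_pi β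
    (fun i => (starRingEnd ℂ) (β i)) hβ (fun i => conj_alg _ (hβ i)) hli d
  refine ⟨κ, c, hc, fun P hP H hH hB => ?_⟩
  obtain ⟨f, hf⟩ : ∃ f : Fin 1 ⊕ Fin n → Option (Fin n), f = Sum.elim (fun _ => none) some :=
    ⟨_, rfl⟩
  have hinj : Function.Injective f := by
    rintro (a | a) (b | b) hab
    · rw [Subsingleton.elim a b]
    · rw [hf] at hab; exact absurd hab (by simp)
    · rw [hf] at hab; exact absurd hab (by simp)
    · rw [hf] at hab
      have := Option.some_injective _ hab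
      rw [this]
  have hR0 : MvPolynomial.rename f P ≠ 0 := by
    rw [Ne, map_eq_zero_iff _ (MvPolynomial.rename_injective _ hinj)]; exact hP
  have h1 := h (MvPolynomial.rename f P) (MvPolynomial.rename f P) hR0 hR0
    (ren_degree_le f hinj P d hB.1) (ren_degree_le f hinj P d hB.1) H hH
    (ren_coeff f hinj P H (by linarith) hB.2) (ren_coeff f hinj P H (by linarith) hB.2)
  rw [ev_conj, Complex.norm_conj, max_self] at h1
  have e2 : ev (Real.pi : ℂ) β (MvPolynomial.rename f P) =
      MvPolynomial.aeval (Sum.elim (fun _ : Fin 1 => (Real.pi : ℂ)) fun i => Complex.exp (β i)) P := by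
    rw [ev, MvPolynomial.aeval_rename]
    congr 2
    funext s
    rcases s with a | a
    · rw [hf]; rfl
    · rw [hf]; rfl
  rw [e2] at h1
  exact h1

/-- the size of the numbers `t θ^m` -/
lemma um_le {ι : Type} [Fintype ι] (θ : ι → ℂ) (M : ℕ) (T : ℝ) : ∃ T' : ℝ, ∀ t : ℂ, ‖t‖ ≤ T →
    ∀ m : ι → ℤ, (∀ i, |m i| ≤ M) → ‖um t θ m‖ ≤ T' := by
  classical
  refine ⟨|T| * ∏ i, (max 1 (max ‖θ i‖ ‖θ i‖⁻¹)) ^ M, fun t ht m hm => ?_⟩
  rw [um, norm_mul, norm_prod]
  refine mul_le_mul (ht.trans (le_abs_self _)) ?_ (Finset.prod_nonneg fun _ _ => norm_nonneg _)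
    (abs_nonneg _)
  refine Finset.prod_le_prod (fun _ _ => norm_nonneg _) fun i _ => ?_
  have h1 : 1 ≤ max 1 (max ‖θ i‖ ‖θ i‖⁻¹) := le_max_left _ _
  have h2 : (m i).natAbs ≤ M := by
    have := hm i
    rw [abs_le] at this
    omega
  rw [norm_zpow]
  rcases le_total 0 (m i) with h3 | h3
  · have e1 : m i = ((m i).natAbs : ℤ) := by omega
    rw [e1, zpow_natCast]
    calc ‖θ i‖ ^ (m i).natAbs ≤ (max 1 (max ‖θ i‖ ‖θ i‖⁻¹)) ^ (m i).natAbs :=
          pow_le_pow_left₀ (norm_nonneg _) ((le_max_left _ _).trans (le_max_right _ _)) _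
      _ ≤ _ := pow_le_pow_right₀ h1 h2
  · have e1 : m i = -((m i).natAbs : ℤ) := by omega
    rw [e1, zpow_neg, zpow_natCast, ← inv_pow]
    calc ‖θ i‖⁻¹ ^ (m i).natAbs ≤ (max 1 (max ‖θ i‖ ‖θ i‖⁻¹)) ^ (m i).natAbs :=
          pow_le_pow_left₀ (by positivity) ((le_max_right _ _).trans (le_max_right _ _)) _
      _ ≤ _ := pow_le_pow_right₀ h1 h2

end Pool.Agent.H488.M
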