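import Pool.Agent.H488.M.El

/-!
# Small irreducible polynomials at one point and at one scale
-/

set_option autoImplicit false

namespace Pool.Agent.H488.M

open Polynomial
open Pool.Agent.H596.Q (sd sd_mul sd_zero factor_height)

/-- two irreducible polynomials which are not associated are not both small at `x` -/
def Sep {τ : Type} (x : τ → ℂ) (d κ : ℕ) (c : ℝ) : Prop :=
  ∀ F G : MvPolynomial τ ℤ, Irreducible F → Irreducible G → ¬ Associated F G → ∀ H : ℝ, 1 ≤ H →
    Bd d H F → Bd d H G → c ≤ H ^ κ * max ‖vl x F‖ ‖vl x G‖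

theorem sep_pt {σ : Type} [Fintype σ] (θ : σ → ℂ) (hθ : Meas θ) (d : ℕ) :
    ∃ κ : ℕ, ∀ T : ℝ, ∃ c : ℝ, 0 < c ∧ ∀ t : ℂ, ‖t‖ ≤ T → Sep (pt t θ) d κ c := by
  obtain ⟨κ, h⟩ := elimM θ hθ d
  refine ⟨κ, fun T => ?_⟩
  obtain ⟨c, hc, h⟩ := h T
  refine ⟨c, hc, fun t ht F G hF hG hFG H hH hFH hGH => h t ht F G (fun D hD1 hD2 => ?_) H hH hFH hGH⟩
  obtain ⟨E, hE⟩ := hD1
  rcases hF.isUnit_or_isUnit hE with h3 | h3
  · obtain ⟨w, hw⟩ := h3.exists_right_inv
    have h1 : D ≠ 0 := h3.ne_zero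
    have h2 : w ≠ 0 := right_ne_zero_of_mul (by rw [hw]; exact one_ne_zero)
    have h9 := MvPolynomial.degreeOf_mul_eq (n := none) h1 h2
    rw [hw, MvPolynomial.degreeOf_one] at h9
    omega
  · exfalso
    apply hFG
    have h4 : F ∣ D := by
      obtain ⟨u, hu⟩ := h3
      refine ⟨↑u⁻¹, ?_⟩
      rw [hE, ← hu, mul_assoc, Units.mul_inv, mul_one]
    exact (hF.dvd_irreducible_iff_associated hG).1 (h4.trans hD2)

variable {τ : Type} [Fintype τ]

/-- a lower bound from lower bounds for the irreducible factors -/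
lemma prod_bound (x : τ → ℂ) (δ : ℝ) (hδ : 0 < δ) (hδ1 : δ ≤ 1)
    (P : MvPolynomial τ ℤ) (hP : P ≠ 0)
    (h : ∀ p, Irreducible p → p ∣ P → δ ≤ ‖vl x p‖) : δ ^ sd P ≤ ‖vl x P‖ := by
  classical
  induction P using WfDvdMonoid.induction_on_irreducible with
  | zero => exact absurd rfl hP
  | unit u hu =>
    obtain ⟨z, hz⟩ := sd_zero u (by
      obtain ⟨w, hw⟩ := hu.exists_right_inv
      have h1 : u ≠ 0 := hu.ne_zero
      have h2 : w ≠ 0 := right_ne_zero_of_mul (by rw [hw]; exact one_ne_zero)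
      have h3 := sd_mul u w h1 h2
      have h4 : sd (1 : MvPolynomial τ ℤ) = 0 := by simp [sd]
      rw [hw, h4] at h3
      omega)
    have hz0 : z ≠ 0 := fun h0 => hP (by rw [hz, h0, map_zero])
    have h5 : vl x u = z := by rw [vl, hz]; simp
    rw [h5, Complex.norm_intCast]
    exact (pow_le_one₀ hδ.le hδ1).trans (by exact_mod_cast Int.one_le_abs hz0)
  | mul a i ha hi ih =>
    have hi0 : i ≠ 0 := hi.ne_zero
    rw [vl_mul, norm_mul, sd_mul i a hi0 ha, pow_add]
    refine mul_le_mul ?_ (ih ha fun p hp hpa => h p hp (hpa.trans (dvd_mul_left _ _)))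
      (by positivity) (norm_nonneg _)
    by_cases h0 : sd i = 0
    · obtain ⟨z, hz⟩ := sd_zero i h0
      have hz0 : z ≠ 0 := fun h0 => hi0 (by rw [hz, h0, map_zero])
      have h5 : vl x i = z := by rw [vl, hz]; simp
      rw [h5, Complex.norm_intCast, h0, pow_zero]
      exact_mod_cast Int.one_le_abs hz0
    · have h6 := h i hi (dvd_mul_right _ _)
      refine le_trans ?_ h6
      exact pow_le_of_le_one hδ.le hδ1 h0

/-- the number of factors -/
noncomputable def nf (τ : Type) [Fintype τ] (d : ℕ) : ℕ := Fintype.card τ * d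

/-- **A small irreducible factor.** -/
theorem small_factor (τ : Type) [Fintype τ] (d : ℕ) : ∃ B : ℝ, 1 ≤ B ∧ ∀ (x : τ → ℂ)
    (P : MvPolynomial τ ℤ), P ≠ 0 → ∀ H : ℝ, 0 ≤ H → Bd d H P → ∀ δ : ℝ, 0 < δ → δ ≤ 1 →
      ‖vl x P‖ < δ ^ nf τ d → ∃ p, Irreducible p ∧ p ∣ P ∧ Bd d (B * H) p ∧ ‖vl x p‖ < δ := by
  obtain ⟨B, hB, hfac⟩ := factor_height (τ := τ) d
  refine ⟨B, hB, fun x P hP H hH hPH δ hδ hδ1 hs => ?_⟩
  by_contra hcon
  push Not at hcon
  have h2 := prod_bound x δ hδ hδ1 P hP fun p hp hpP =>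
    hcon p hp hpP (hfac P p hP hpP hPH.1 H hH hPH.2)
  have h3 : sd P ≤ nf τ d := by
    rw [sd, nf, ← smul_eq_mul, ← Finset.card_univ]
    exact Finset.sum_le_card_nsmul _ _ _ fun o _ => hPH.1 o
  have h4 : δ ^ nf τ d ≤ ‖vl x P‖ := (pow_le_pow_of_le_one hδ.le hδ1 h3).trans h2
  linarith

omit [Fintype τ] in
lemma vl_assoc (x : τ → ℂ) (P Q : MvPolynomial τ ℤ) (h : Associated P Q) : ‖vl x P‖ = ‖vl x Q‖ := by
  obtain ⟨u, hu⟩ := h
  have h1 : ‖vl x (u : MvPolynomial τ ℤ)‖ = 1 := by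
    obtain ⟨r, hr, hru⟩ := MvPolynomial.isUnit_iff_eq_C_of_isReduced.1 u.isUnit
    rw [hru, vl, MvPolynomial.aeval_C]
    rcases Int.isUnit_iff.1 hr with h | h
    · rw [h]; simp
    · rw [h]; simp
  rw [← hu, vl_mul, norm_mul, h1, mul_one]

/-! ## Weights -/

/-- the weight of a monomial -/
def wt (w : τ → ℤ) (μ : τ →₀ ℕ) : ℤ := ∑ o, w o * μ o

/-- the derivation of Euler -/
noncomputable def Eu (w : τ → ℤ) : Derivation ℤ (MvPolynomial τ ℤ) (MvPolynomial τ ℤ) :=
  MvPolynomial.mkDerivation ℤ fun o => MvPolynomial.C (w o) * MvPolynomial.X o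

lemma Eu_monomial (w : τ → ℤ) (μ : τ →₀ ℕ) (r : ℤ) :
    Eu w (MvPolynomial.monomial μ r) = MvPolynomial.monomial μ (wt w μ * r) := by
  classical
  rw [Eu, MvPolynomial.mkDerivation_monomial, Finsupp.sum_fintype _ _ (fun i => by simp)]
  have h1 : ∀ o : τ, MvPolynomial.monomial (μ - Finsupp.single o 1) ((μ o : ℕ) : ℤ) •
      (MvPolynomial.C (w o) * MvPolynomial.X o : MvPolynomial τ ℤ) =
      MvPolynomial.monomial μ (w o * μ o) := by
    intro o
    rw [smul_eq_mul, MvPolynomial.X, MvPolynomial.C_mul_monomial, MvPolynomial.monomial_mul]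
    by_cases h0 : μ o = 0
    · rw [h0]; simp
    · have hμ : μ - Finsupp.single o 1 + Finsupp.single o 1 = μ := by
        ext o'
        simp only [Finsupp.coe_add, Finsupp.coe_tsub, Pi.add_apply, Pi.sub_apply]
        by_cases hoo : o = o'
        · subst hoo
          simp only [Finsupp.single_eq_same]
          omega
        · rw [Finsupp.single_eq_of_ne (Ne.symm hoo)]
          omega
      rw [hμ]
      congr 1
      ring
  simp only [h1]
  rw [← map_sum (MvPolynomial.monomial μ), MvPolynomial.smul_monomial, wt]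
  congr 1
  rw [smul_eq_mul, mul_comm]

lemma Eu_coeff (w : τ → ℤ) (P : MvPolynomial τ ℤ) (μ : τ →₀ ℕ) :
    (Eu w P).coeff μ = wt w μ * P.coeff μ := by
  classical
  conv_lhs => rw [MvPolynomial.as_sum P]
  rw [map_sum, MvPolynomial.coeff_sum]
  simp only [Eu_monomial, MvPolynomial.coeff_monomial]
  rw [Finset.sum_ite_eq']
  split_ifs with h
  · rfl
  · rw [MvPolynomial.notMem_support_iff.1 h, mul_zero]

/-- a factor of a homogeneous polynomial is homogeneous -/
theorem homog_factor (w : τ → ℤ) (P : MvPolynomial τ ℤ) (hP : P ≠ 0) (N : ℤ)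
    (hN : ∀ μ ∈ P.support, wt w μ = N) (p : MvPolynomial τ ℤ) (hp : Irreducible p) (hpP : p ∣ P) :
    ∃ c : ℤ, ∀ μ ∈ p.support, wt w μ = c := by
  classical
  have hprime : Prime p := hp.prime
  obtain ⟨e, q, hq, he⟩ := WfDvdMonoid.max_power_factor hP hp
  have h1 : Eu w P = MvPolynomial.C N * P := by
    ext μ
    rw [Eu_coeff, MvPolynomial.coeff_C_mul]
    by_cases hμ : μ ∈ P.support
    · rw [hN μ hμ]
    · rw [MvPolynomial.notMem_support_iff.1 hμ, mul_zero, mul_zero]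
  have he0 : e ≠ 0 := by
    rintro rfl
    rw [pow_zero, one_mul] at he
    rw [he] at hpP
    exact hq hpP
  obtain ⟨e', rfl⟩ : ∃ e', e = e' + 1 := ⟨e - 1, by omega⟩
  have h2 : p ∣ MvPolynomial.C ((e' + 1 : ℕ) : ℤ) * q * Eu w p := by
    have h3 := h1
    rw [he, Derivation.leibniz, Derivation.leibniz_pow, smul_eq_mul, smul_eq_mul,
      Nat.add_sub_cancel] at h3
    have hp0 : p ^ e' ≠ 0 := pow_ne_zero _ hp.ne_zero
    have h4 : p ^ e' * (MvPolynomial.C ((e' + 1 : ℕ) : ℤ) * q * Eu w p) =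
        p ^ e' * (p * (MvPolynomial.C N * q - Eu w q)) := by
      have h5 : ((e' + 1) • p ^ e' • Eu w p : MvPolynomial τ ℤ) =
          MvPolynomial.C ((e' + 1 : ℕ) : ℤ) * (p ^ e' * Eu w p) := by
        rw [nsmul_eq_mul, smul_eq_mul]
        congr 1
      rw [h5] at h3
      linear_combination h3
    rw [mul_left_cancel₀ hp0 h4]
    exact dvd_mul_right _ _
  have h0 : (e' + 1 : ℕ) ≠ 0 := Nat.succ_ne_zero _
  rcases hprime.dvd_or_dvd h2 with h3 | h3
  · rcases hprime.dvd_or_dvd h3 with h4 | h4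
    · -- a constant
      refine ⟨0, fun μ hμ => ?_⟩
      obtain ⟨g, hg⟩ := h4
      have hC0 : (MvPolynomial.C ((e' + 1 : ℕ) : ℤ) : MvPolynomial τ ℤ) ≠ 0 := by
        rw [Ne, MvPolynomial.C_eq_zero]
        exact_mod_cast h0
      have hg0 : g ≠ 0 := right_ne_zero_of_mul (by rw [← hg]; exact hC0)
      rw [wt]
      refine Finset.sum_eq_zero fun o _ => ?_
      have h5 := MvPolynomial.degreeOf_mul_eq (n := o) hp.ne_zero hg0
      rw [← hg, MvPolynomial.degreeOf_C] at h5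
      have h6 := (MvPolynomial.degreeOf_le_iff.1 (show p.degreeOf o ≤ 0 by omega)) μ hμ
      have h7 : μ o = 0 := by omega
      rw [h7]; simp
    · exact absurd h4 hq
  · obtain ⟨g, hg⟩ := h3
    by_cases hE : Eu w p = 0
    · refine ⟨0, fun μ hμ => ?_⟩
      have h4 := Eu_coeff w p μ
      rw [hE, MvPolynomial.coeff_zero] at h4
      rcases mul_eq_zero.1 h4.symm with h5 | h5
      · exact h5
      · exact absurd h5 (MvPolynomial.mem_support_iff.1 hμ)
    · have hg0 : g ≠ 0 := right_ne_zero_of_mul (by rw [← hg]; exact hE)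
      obtain ⟨z, hz⟩ := sd_zero g (by
        rw [sd]
        refine Finset.sum_eq_zero fun o _ => ?_
        have h5 := MvPolynomial.degreeOf_mul_eq (n := o) hp.ne_zero hg0
        rw [← hg] at h5
        have h6 : (Eu w p).degreeOf o ≤ p.degreeOf o := by
          rw [MvPolynomial.degreeOf_le_iff]
          intro m hm
          refine (MvPolynomial.degreeOf_le_iff.1 le_rfl) m ?_
          rw [MvPolynomial.mem_support_iff] at hm ⊢
          rw [Eu_coeff] at hm
          exact right_ne_zero_of_mul hm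
        omega)
      refine ⟨z, fun μ hμ => ?_⟩
      have h4 := Eu_coeff w p μ
      rw [hg, hz, mul_comm p, MvPolynomial.coeff_C_mul] at h4
      exact (mul_right_cancel₀ (MvPolynomial.mem_support_iff.1 hμ) h4).symm

end Pool.Agent.H488.M
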