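import Pool.Agent.H488.M.Di

/-!
# Families of numbers given by polynomials at one point: joint measure and dichotomy (abstract form)
-/

set_option autoImplicit false

namespace Pool.Agent.H488.M

/-- A family of numbers, described by the values `v i P` for `P` in a set of relations `ok H` of
height at most `H`, and by polynomials `tr i P` at the point `x`. -/
structure Fam {τ I Rl : Type} (x : τ → ℂ) (d κ₁ κ₂ : ℕ) (c₁ c₂ C L : ℝ) (ok : ℝ → Rl → Prop)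
    (v : I → Rl → ℂ) (tr : I → Rl → MvPolynomial τ ℤ) : Prop where
  ne : ∀ i H P, ok H P → tr i P ≠ 0
  bd : ∀ i H P, 0 ≤ H → ok H P → Bd d (C * H) (tr i P)
  le : ∀ i H P, ok H P → ‖vl x (tr i P)‖ ≤ L * ‖v i P‖
  zero : ∀ i H P, ok H P → vl x (tr i P) = 0 → v i P = 0
  excl : ∀ i j, i ≠ j → ∀ H H' P Q, ok H P → ok H' Q → ∀ p, Irreducible p → p ∣ tr i P →
    p ∣ tr j Q → ∀ Y : ℝ, 1 ≤ Y → Bd d Y p → c₁ ≤ Y ^ κ₁ * ‖vl x p‖
  sep : Sep x d κ₂ c₂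

/-- **The joint measure.** -/
theorem ab_joint (τ : Type) [Fintype τ] (d κ₁ κ₂ : ℕ) (c₁ c₂ C L : ℝ) (hc₁ : 0 < c₁)
    (hc₂ : 0 < c₂) (hC : 1 ≤ C) (hL : 1 ≤ L) : ∃ c : ℝ, 0 < c ∧ ∀ (I Rl : Type) (x : τ → ℂ)
    (ok : ℝ → Rl → Prop) (v : I → Rl → ℂ) (tr : I → Rl → MvPolynomial τ ℤ),
    Fam x d κ₁ κ₂ c₁ c₂ C L ok v tr → ∀ i j, i ≠ j → ∀ P Q, ∀ H : ℝ, 1 ≤ H → ok H P → ok H Q →
      c ≤ H ^ ((κ₁ + κ₂) * nf τ d) * max ‖v i P‖ ‖v j Q‖ := by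
  obtain ⟨B, hB, hfac⟩ := small_factor τ d
  obtain ⟨N, hN⟩ : ∃ N : ℕ, N = nf τ d := ⟨_, rfl⟩
  obtain ⟨B', hB'⟩ : ∃ B' : ℝ, B' = B * C := ⟨_, rfl⟩
  have hB'1 : 1 ≤ B' := by rw [hB']; exact one_le_mul_of_one_le_of_one_le hB hC
  obtain ⟨c₃, hc₃⟩ : ∃ c₃ : ℝ, c₃ = min (min c₁ c₂) 1 / B' ^ (κ₁ + κ₂) := ⟨_, rfl⟩
  have hmin : 0 < min (min c₁ c₂) 1 := lt_min (lt_min hc₁ hc₂) one_pos
  have hc₃0 : 0 < c₃ := by rw [hc₃]; positivity
  have hc₃1 : c₃ ≤ 1 := by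
    rw [hc₃, div_le_one (by positivity)]
    exact (min_le_right _ _).trans (one_le_pow₀ hB'1)
  refine ⟨c₃ ^ N / L, by positivity, fun I Rl x ok v tr hF i j hij P Q H hH hP hQ => ?_⟩
  rw [← hN]
  by_contra hcon
  push Not at hcon
  have hH0 : 0 < H := by linarith
  obtain ⟨δ, hδ⟩ : ∃ δ : ℝ, δ = c₃ / H ^ (κ₁ + κ₂) := ⟨_, rfl⟩
  have hδ0 : 0 < δ := by rw [hδ]; positivity
  have hδ1 : δ ≤ 1 := by
    rw [hδ, div_le_one (by positivity)]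
    exact hc₃1.trans (one_le_pow₀ hH)
  have key : ∀ (k : I) (R : Rl), ok H R → H ^ ((κ₁ + κ₂) * N) * ‖v k R‖ < c₃ ^ N / L →
      ∃ p, Irreducible p ∧ p ∣ tr k R ∧ Bd d (B' * H) p ∧ ‖vl x p‖ < δ := by
    intro k R hR hs
    have h0 := hfac x _ (hF.ne k H R hR) (C * H) (by positivity) (hF.bd k H R hH0.le hR) δ hδ0 hδ1 ?_
    · rw [hB', mul_assoc]; exact h0
    rw [← hN, hδ, div_pow, ← pow_mul, lt_div_iff₀ (by positivity)]
    rw [lt_div_iff₀ (by positivity)] at hs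
    calc ‖vl x (tr k R)‖ * H ^ ((κ₁ + κ₂) * N) ≤ (L * ‖v k R‖) * H ^ ((κ₁ + κ₂) * N) :=
          mul_le_mul_of_nonneg_right (hF.le k H R hR) (by positivity)
      _ = H ^ ((κ₁ + κ₂) * N) * ‖v k R‖ * L := by ring
      _ < c₃ ^ N := hs
  have hHp : 0 < H ^ ((κ₁ + κ₂) * N) := by positivity
  obtain ⟨p, hp, hpP, hpB, hps⟩ := key i P hP
    (lt_of_le_of_lt (mul_le_mul_of_nonneg_left (le_max_left _ _) hHp.le) hcon)
  obtain ⟨q, hq, hqQ, hqB, hqs⟩ := key j Q hQ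
    (lt_of_le_of_lt (mul_le_mul_of_nonneg_left (le_max_right _ _) hHp.le) hcon)
  have hBH : 1 ≤ B' * H := one_le_mul_of_one_le_of_one_le hB'1 hH
  have hfin : ∀ κ' : ℕ, κ' ≤ κ₁ + κ₂ → ∀ v : ℝ, 0 ≤ v → v < δ → (B' * H) ^ κ' * v < min (min c₁ c₂) 1 := by
    intro κ' hκ' v hv0 hv
    calc (B' * H) ^ κ' * v ≤ (B' * H) ^ (κ₁ + κ₂) * v :=
          mul_le_mul_of_nonneg_right (pow_le_pow_right₀ hBH hκ') hv0
      _ < (B' * H) ^ (κ₁ + κ₂) * δ := mul_lt_mul_of_pos_left hv (by positivity)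
      _ = _ := by rw [hδ, hc₃, mul_pow]; field_simp
  by_cases hass : Associated p q
  · have h3 := hF.excl i j hij H H P Q hP hQ p hp hpP (hass.dvd.trans hqQ) (B' * H) hBH hpB
    have h4 := hfin κ₁ (Nat.le_add_right _ _) _ (norm_nonneg _) hps
    have h5 : min (min c₁ c₂) 1 ≤ c₁ := (min_le_left _ _).trans (min_le_left _ _)
    linarith
  · have h3 := hF.sep p q hp hq hass (B' * H) hBH hpB hqB
    have h4 := hfin κ₂ (Nat.le_add_left _ _) (max ‖vl x p‖ ‖vl x q‖)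
      ((norm_nonneg _).trans (le_max_left _ _)) (max_lt hps hqs)
    have h5 : min (min c₁ c₂) 1 ≤ c₂ := (min_le_left _ _).trans (min_le_right _ _)
    linarith

/-- the exponent in the dichotomy -/
noncomputable def wexp (τ : Type) [Fintype τ] (d κ₁ κ₂ A : ℕ) : ℕ :=
  (A * κ₂ + κ₂ + κ₁ + 1) * nf τ d + 1

/-- some relation for the number `i` is small at the scale `H` -/
def Nr {I Rl : Type} (ok : ℝ → Rl → Prop) (v : I → Rl → ℂ) (w : ℕ) (H : ℝ) (i : I) : Prop :=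
  ∃ P, ok H P ∧ ‖v i P‖ ≤ 1 / H ^ w

/-- **The dichotomy.** -/
theorem ab_dich (τ : Type) [Fintype τ] (d κ₁ κ₂ A : ℕ) (c₁ c₂ C L : ℝ) (hc₁ : 0 < c₁)
    (hc₂ : 0 < c₂) (hC : 1 ≤ C) (hL : 1 ≤ L) : ∃ H₀ : ℝ, 1 ≤ H₀ ∧ ∀ (I Rl : Type) (x : τ → ℂ)
    (ok : ℝ → Rl → Prop) (v : I → Rl → ℂ) (tr : I → Rl → MvPolynomial τ ℤ),
    Fam x d κ₁ κ₂ c₁ c₂ C L ok v tr → ∀ i, ∀ H : ℝ, H₀ ≤ H → Nr ok v (wexp τ d κ₁ κ₂ A) H i →
      ((∃ P, ok H P ∧ v i P = 0) ∧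
        ∀ Y : ℝ, H ≤ Y → ∀ j, j ≠ i → ¬ Nr ok v (wexp τ d κ₁ κ₂ A) Y j) ∨
      ∃ Z : ℝ, H ≤ Z ∧
        (∀ Y : ℝ, H ≤ Y → Y ≤ Z → ∀ j, j ≠ i → ¬ Nr ok v (wexp τ d κ₁ κ₂ A) Y j) ∧
        ∀ Y : ℝ, Z < Y → Y ≤ Z ^ A → ∀ j, ¬ Nr ok v (wexp τ d κ₁ κ₂ A) Y j := by
  obtain ⟨B₀, hB₀, hfac⟩ := small_factor τ d
  obtain ⟨N, hN⟩ : ∃ N : ℕ, N = nf τ d := ⟨_, rfl⟩
  obtain ⟨B, hBC⟩ : ∃ B : ℝ, B = B₀ * C := ⟨_, rfl⟩
  have hB : 1 ≤ B := by rw [hBC]; exact one_le_mul_of_one_le_of_one_le hB₀ hC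
  obtain ⟨W, hW⟩ : ∃ W : ℕ, W = A * κ₂ + κ₂ + κ₁ + 1 := ⟨_, rfl⟩
  have hwe : wexp τ d κ₁ κ₂ A = W * N + 1 := by rw [wexp, hW, hN]
  rw [hwe]
  obtain ⟨H₀, hH₀⟩ : ∃ H₀ : ℝ, H₀ = 1 + L + B ^ κ₁ / c₁ + B ^ κ₂ / c₂ := ⟨_, rfl⟩
  have hq1 : 0 < B ^ κ₁ / c₁ := by positivity
  have hq2 : 0 < B ^ κ₂ / c₂ := by positivity
  refine ⟨H₀, by linarith, fun I Rl x ok v tr hF i H hH hnear => ?_⟩
  -- small factors
  have key : ∀ (k : I) (Y : ℝ), H₀ ≤ Y → Nr ok v (W * N + 1) Y k →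
      ∃ R, ok Y R ∧ ∃ p, Irreducible p ∧ p ∣ tr k R ∧ Bd d (B * Y) p ∧ ‖vl x p‖ < 1 / Y ^ W := by
    intro k Y hY ⟨R, hR, hs⟩
    have hY1 : 1 ≤ Y := by linarith
    have hY0 : 0 < Y := by linarith
    refine ⟨R, hR, ?_⟩
    have h0 := hfac x _ (hF.ne k Y R hR) (C * Y) (by positivity) (hF.bd k Y R hY0.le hR)
      (1 / Y ^ W) (by positivity)
      (by rw [div_le_one (by positivity)]; exact one_le_pow₀ hY1) ?_
    · rw [hBC, mul_assoc]; exact h0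
    rw [← hN]
    calc ‖vl x (tr k R)‖ ≤ L * ‖v k R‖ := hF.le k Y R hR
      _ ≤ L * (1 / Y ^ (W * N + 1)) := mul_le_mul_of_nonneg_left hs (by linarith)
      _ < Y * (1 / Y ^ (W * N + 1)) := mul_lt_mul_of_pos_right (by linarith) (by positivity)
      _ = (1 / Y ^ W) ^ N := by rw [div_pow, one_pow, ← pow_mul, pow_succ]; field_simp
  have hbig : ∀ (κ' : ℕ) (c' : ℝ), 0 < c' → B ^ κ' / c' < H₀ → ∀ Y : ℝ, H₀ ≤ Y → ∀ v : ℝ, 0 ≤ v →
      v ≤ 1 / Y ^ (κ' + 1) → (B * Y) ^ κ' * v < c' := by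
    intro κ' c' hc' hH' Y hY v hv0 hv
    have hY0 : 0 < Y := by linarith
    calc (B * Y) ^ κ' * v ≤ (B * Y) ^ κ' * (1 / Y ^ (κ' + 1)) :=
          mul_le_mul_of_nonneg_left hv (by positivity)
      _ = B ^ κ' / Y := by rw [mul_pow, pow_succ]; field_simp
      _ < c' := by
          rw [div_lt_iff₀ hY0]
          rw [div_lt_iff₀ hc'] at hH'
          nlinarith
  have hmono : ∀ (Y : ℝ), 1 ≤ Y → ∀ k : ℕ, k ≤ W → 1 / Y ^ W ≤ 1 / Y ^ k := fun Y hY k hk =>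
    one_div_le_one_div_of_le (by positivity) (pow_le_pow_right₀ hY hk)
  obtain ⟨P, hPH, p, hp, hpP, hpB, hps⟩ := key i H hH hnear
  have hH1 : 1 ≤ H := by linarith
  -- between the scales
  have between : ∀ Y : ℝ, H ≤ Y → ‖vl x p‖ ≤ 1 / Y ^ W → ∀ j, j ≠ i → ¬ Nr ok v (W * N + 1) Y j := by
    intro Y hHY hpY j hne hn
    have hY₀ : H₀ ≤ Y := hH.trans hHY
    have hY1 : 1 ≤ Y := by linarith
    obtain ⟨Q, hQY, q, hq, hqQ, hqB, hqs⟩ := key j Y hY₀ hn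
    have hBY : 1 ≤ B * Y := one_le_mul_of_one_le_of_one_le hB hY1
    have hpB' : Bd d (B * Y) p := hpB.mono (mul_le_mul_of_nonneg_left hHY (by linarith))
    by_cases hass : Associated p q
    · have h3 := hF.excl i j (Ne.symm hne) H Y P Q hPH hQY p hp hpP (hass.dvd.trans hqQ) (B * Y)
        hBY hpB'
      have h4 := hbig κ₁ c₁ hc₁ (by linarith) Y hY₀ _ (norm_nonneg _)
        (hpY.trans (hmono Y hY1 (κ₁ + 1) (by omega)))
      linarith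
    · have h3 := hF.sep p q hp hq hass (B * Y) hBY hpB' hqB
      have h4 := hbig κ₂ c₂ hc₂ (by linarith) Y hY₀ (max ‖vl x p‖ ‖vl x q‖)
        ((norm_nonneg _).trans (le_max_left _ _))
        ((max_le hpY hqs.le).trans (hmono Y hY1 (κ₂ + 1) (by omega)))
      linarith
  by_cases hzero : vl x p = 0
  · left
    refine ⟨⟨P, hPH, ?_⟩, fun Y hHY => between Y hHY ?_⟩
    · obtain ⟨g, hg⟩ := hpP
      exact hF.zero i H P hPH (by rw [hg, vl_mul, hzero, zero_mul])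
    · rw [hzero, norm_zero]
      have : 0 < Y := by linarith
      positivity
  · right
    have hpos : 0 < ‖vl x p‖ := norm_pos_iff.2 hzero
    obtain ⟨Z, hZ⟩ : ∃ Z : ℝ, Z = (1 / ‖vl x p‖) ^ ((W : ℝ)⁻¹) := ⟨_, rfl⟩
    have hZ0 : 0 < Z := by rw [hZ]; positivity
    have hZW : Z ^ W = 1 / ‖vl x p‖ := by
      rw [hZ]; exact Real.rpow_inv_natCast_pow (by positivity) (by omega)
    have hpZ : ‖vl x p‖ = 1 / Z ^ W := by rw [hZW]; simp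
    have hHZ : H ≤ Z := by
      by_contra hcon
      push Not at hcon
      have h3 : Z ^ W < H ^ W := pow_lt_pow_left₀ hcon hZ0.le (by omega)
      have h4 : 1 / H ^ W < 1 / Z ^ W := one_div_lt_one_div_of_lt (by positivity) h3
      rw [← hpZ] at h4
      linarith
    refine ⟨Z, hHZ, fun Y hHY hYZ => between Y hHY ?_, fun Y hZY hYA j hn => ?_⟩
    · rw [hpZ]
      have hY0 : 0 < Y := by linarith
      exact one_div_le_one_div_of_le (by positivity) (pow_le_pow_left₀ hY0.le hYZ _)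
    · have hZ₀ : H₀ ≤ Z := hH.trans hHZ
      have hY₀ : H₀ ≤ Y := by linarith
      have hY1 : 1 ≤ Y := by linarith
      have hY0 : 0 < Y := by linarith
      obtain ⟨Q, hQY, q, hq, hqQ, hqB, hqs⟩ := key j Y hY₀ hn
      have hBY : 1 ≤ B * Y := one_le_mul_of_one_le_of_one_le hB hY1
      have hqp : ‖vl x q‖ < ‖vl x p‖ := by
        rw [hpZ]
        refine hqs.trans_le (one_div_le_one_div_of_le (by positivity) ?_)
        exact pow_le_pow_left₀ hZ0.le hZY.le _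
      have hass : ¬ Associated p q := fun h => by
        rw [vl_assoc _ p q h] at hqp
        exact lt_irrefl _ hqp
      have h3 := hF.sep p q hp hq hass (B * Y) hBY
        (hpB.mono (mul_le_mul_of_nonneg_left (hHZ.trans hZY.le) (by linarith))) hqB
      rw [max_eq_left hqp.le, hpZ] at h3
      have h4 : (B * Y) ^ κ₂ * (1 / Z ^ W) ≤ B ^ κ₂ / Z := by
        calc (B * Y) ^ κ₂ * (1 / Z ^ W) ≤ (B * Z ^ A) ^ κ₂ * (1 / Z ^ (A * κ₂ + 1)) := by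
              have h5 : 1 / Z ^ W ≤ 1 / Z ^ (A * κ₂ + 1) :=
                one_div_le_one_div_of_le (by positivity) (pow_le_pow_right₀ (by linarith) (by omega))
              gcongr
          _ = B ^ κ₂ / Z := by rw [mul_pow, ← pow_mul, pow_succ]; field_simp
      have h6 : B ^ κ₂ / Z < c₂ := by
        rw [div_lt_iff₀ hZ0]
        have h7 : B ^ κ₂ / c₂ < Z := by linarith
        rw [div_lt_iff₀ hc₂] at h7
        linarith
      linarith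

end Pool.Agent.H488.M
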