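import Pool.Agent.H488.M.Tr

/-!
# The numbers `t θ^m` over the field generated by `η`: joint measure and dichotomy of scales
-/

set_option autoImplicit false

namespace Pool.Agent.H488.M

variable {ι ρ : Type} [Fintype ι] [Fintype ρ]

omit [Fintype ι] in
lemma meas_ne {θ : ι → ℂ} (h : Meas θ) (i : ι) : θ i ≠ 0 := by
  classical
  intro h0
  obtain ⟨κ, c, hc, h⟩ := h 1
  have h1 := h (MvPolynomial.X i) (MvPolynomial.X_ne_zero i) 1 le_rfl ⟨fun o => by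
    rw [MvPolynomial.degreeOf_X]; split_ifs <;> omega, fun m => by
    rw [MvPolynomial.coeff_X]; split_ifs <;> simp⟩
  rw [MvPolynomial.aeval_X, h0, norm_zero, mul_zero] at h1
  linarith

/-- lower bounds for polynomials which depend on `T` by a power of `T` only -/
lemma excl {σ : Type} [Fintype σ] (Θ : σ → ℂ) (hΘ : Meas Θ) (d : ℕ) : ∃ κ : ℕ, ∀ τ₀ : ℝ, 0 < τ₀ →
    ∃ c : ℝ, 0 < c ∧ ∀ t : ℂ, τ₀ ≤ ‖t‖ → ∀ p : MvPolynomial (Option σ) ℤ, p ≠ 0 →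
      (∃ a : ℕ, ∀ ν ∈ p.support, ν none = a) → ∀ H : ℝ, 1 ≤ H → Bd d H p →
        c ≤ H ^ κ * ‖vl (pt t Θ) p‖ := by
  obtain ⟨κ, c, hc, h⟩ := hΘ d
  refine ⟨κ, fun τ₀ hτ₀ => ⟨(min 1 τ₀) ^ d * c, ?_, fun t ht p hp ⟨a, ha⟩ H hH hB => ?_⟩⟩
  · have : 0 < min 1 τ₀ := lt_min one_pos hτ₀
    positivity
  · obtain ⟨had, p', hp', hB', hv⟩ := pow_val t Θ p hp a ha d H hB
    have h1 := h p' hp' H hH hB'
    rw [hv, norm_mul, norm_pow]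
    have h0 : 0 < min 1 τ₀ := lt_min one_pos hτ₀
    have h2 : (min 1 τ₀) ^ d ≤ ‖t‖ ^ a :=
      (pow_le_pow_of_le_one h0.le (min_le_left _ _) had).trans
        (pow_le_pow_left₀ h0.le ((min_le_right _ _).trans ht) a)
    calc (min 1 τ₀) ^ d * c ≤ ‖t‖ ^ a * (H ^ κ * ‖MvPolynomial.aeval Θ p'‖) :=
          mul_le_mul h2 h1 hc.le (by positivity)
      _ = _ := by ring

/-- the size of the factor -/
lemma tr_size (θ : ι → ℂ) (d M : ℕ) : ∃ L : ℝ, 1 ≤ L ∧ ∀ m : ι → ℤ, (∀ i, |m i| ≤ M) →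
    ‖∏ i, θ i ^ ((-m i).toNat * d)‖ ≤ L := by
  refine ⟨∏ i, (max 1 ‖θ i‖) ^ (M * d), ?_, fun m hm => ?_⟩
  · calc (1 : ℝ) = ∏ _i : ι, (1 : ℝ) := by simp
      _ ≤ _ := Finset.prod_le_prod (fun _ _ => zero_le_one) fun i _ =>
          one_le_pow₀ (le_max_left _ _)
  · rw [norm_prod]
    refine Finset.prod_le_prod (fun _ _ => norm_nonneg _) fun i _ => ?_
    rw [norm_pow]
    calc ‖θ i‖ ^ ((-m i).toNat * d) ≤ (max 1 ‖θ i‖) ^ ((-m i).toNat * d) :=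
          pow_le_pow_left₀ (norm_nonneg _) (le_max_right _ _) _
      _ ≤ _ := by
          refine pow_le_pow_right₀ (le_max_left _ _) (Nat.mul_le_mul_right _ ?_)
          have := hm i
          rw [abs_le] at this
          omega

/-- **The joint measure.** -/
theorem joint (θ : ι → ℂ) (η : ρ → ℂ) (hM : Meas (Sum.elim θ η)) (d M : ℕ) : ∃ κ : ℕ,
    ∀ T τ₀ : ℝ, 0 < τ₀ → ∃ c : ℝ, 0 < c ∧ ∀ t : ℂ, τ₀ ≤ ‖t‖ → ‖t‖ ≤ T → ∀ m m' : ι → ℤ,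
      (∀ i, |m i| ≤ M) → (∀ i, |m' i| ≤ M) → m ≠ m' → ∀ P Q : MvPolynomial (Option ρ) ℤ,
      P ≠ 0 → Q ≠ 0 → ∀ H : ℝ, 1 ≤ H → Bd d H P → Bd d H Q →
      c ≤ H ^ κ * max ‖vl (pt (um t θ m) η) P‖ ‖vl (pt (um t θ m') η) Q‖ := by
  obtain ⟨d', hd'⟩ : ∃ d' : ℕ, d' = d + M * d := ⟨_, rfl⟩
  obtain ⟨κ₁, h₁⟩ := excl (Sum.elim θ η) hM d'
  obtain ⟨κ₂, h₂⟩ := sep_pt (Sum.elim θ η) hM d'
  obtain ⟨B, hB, hfac⟩ := small_factor (Option (ι ⊕ ρ)) d'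
  obtain ⟨L, hL, hsize⟩ := tr_size θ d M
  obtain ⟨N, hN⟩ : ∃ N : ℕ, N = nf (Option (ι ⊕ ρ)) d' := ⟨_, rfl⟩
  refine ⟨(κ₁ + κ₂) * N, fun T τ₀ hτ₀ => ?_⟩
  obtain ⟨c₁, hc₁, h₁⟩ := h₁ τ₀ hτ₀
  obtain ⟨c₂, hc₂, h₂⟩ := h₂ T
  obtain ⟨c₃, hc₃⟩ : ∃ c₃ : ℝ, c₃ = min (min c₁ c₂) 1 / B ^ (κ₁ + κ₂) := ⟨_, rfl⟩
  have hmin : 0 < min (min c₁ c₂) 1 := lt_min (lt_min hc₁ hc₂) one_pos
  have hc₃0 : 0 < c₃ := by rw [hc₃]; positivity
  have hc₃1 : c₃ ≤ 1 := by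
    rw [hc₃, div_le_one (by positivity)]
    exact (min_le_right _ _).trans (one_le_pow₀ hB)
  refine ⟨c₃ ^ N / L, by positivity, fun t ht1 ht2 m m' hm hm' hne P Q hP hQ H hH hPH hQH => ?_⟩
  by_contra hcon
  push Not at hcon
  have hH0 : 0 < H := by linarith
  obtain ⟨δ, hδ⟩ : ∃ δ : ℝ, δ = c₃ / H ^ (κ₁ + κ₂) := ⟨_, rfl⟩
  have hδ0 : 0 < δ := by rw [hδ]; positivity
  have hδ1 : δ ≤ 1 := by
    rw [hδ, div_le_one (by positivity)]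
    exact hc₃1.trans (one_le_pow₀ hH)
  have hθ0 : ∀ i, θ i ≠ 0 := fun i => meas_ne hM (Sum.inl i)
  have key : ∀ (k : ι → ℤ) (R : MvPolynomial (Option ρ) ℤ), (∀ i, |k i| ≤ M) → R ≠ 0 → Bd d H R →
      H ^ ((κ₁ + κ₂) * N) * ‖vl (pt (um t θ k) η) R‖ < c₃ ^ N / L →
      ∃ p, Irreducible p ∧ p ∣ tr d k R ∧ Bd d' (B * H) p ∧ ‖vl (pt t (Sum.elim θ η)) p‖ < δ := by
    intro k R hk hR hRH hs
    refine hfac _ _ (tr_ne d k R hR) H hH0.le (by rw [hd']; exact tr_Bd d M k hk R H hRH hH0.le) δ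
      hδ0 hδ1 ?_
    rw [tr_val d k t θ hθ0 η R (hRH.1 none), norm_mul, ← hN, hδ, div_pow, ← pow_mul,
      lt_div_iff₀ (by positivity)]
    rw [lt_div_iff₀ (by positivity)] at hs
    calc ‖∏ i, θ i ^ ((-k i).toNat * d)‖ * ‖vl (pt (um t θ k) η) R‖ * H ^ ((κ₁ + κ₂) * N)
        ≤ L * ‖vl (pt (um t θ k) η) R‖ * H ^ ((κ₁ + κ₂) * N) := by
          have := hsize k hk
          gcongr
      _ = H ^ ((κ₁ + κ₂) * N) * ‖vl (pt (um t θ k) η) R‖ * L := by ring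
      _ < c₃ ^ N := hs
  have hHp : 0 < H ^ ((κ₁ + κ₂) * N) := by positivity
  obtain ⟨p, hp, hpP, hpB, hps⟩ := key m P hm hP hPH
    (lt_of_le_of_lt (mul_le_mul_of_nonneg_left (le_max_left _ _) hHp.le) hcon)
  obtain ⟨q, hq, hqQ, hqB, hqs⟩ := key m' Q hm' hQ hQH
    (lt_of_le_of_lt (mul_le_mul_of_nonneg_left (le_max_right _ _) hHp.le) hcon)
  have hBH : 1 ≤ B * H := one_le_mul_of_one_le_of_one_le hB hH
  have hfin : ∀ κ' : ℕ, κ' ≤ κ₁ + κ₂ → ∀ v : ℝ, 0 ≤ v → v < δ → (B * H) ^ κ' * v < min (min c₁ c₂) 1 := by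
    intro κ' hκ' v hv0 hv
    calc (B * H) ^ κ' * v ≤ (B * H) ^ (κ₁ + κ₂) * v :=
          mul_le_mul_of_nonneg_right (pow_le_pow_right₀ hBH hκ') hv0
      _ < (B * H) ^ (κ₁ + κ₂) * δ := mul_lt_mul_of_pos_left hv (by positivity)
      _ = _ := by rw [hδ, hc₃, mul_pow]; field_simp
  by_cases hass : Associated p q
  · have hpQ : p ∣ tr d m' Q := hass.dvd.trans hqQ
    have h3 := h₁ t ht1 p hp.ne_zero (tr_common d m m' hne P Q hP hQ (hPH.1 none) (hQH.1 none) p hp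
      hpP hpQ) (B * H) hBH hpB
    have h4 := hfin κ₁ (Nat.le_add_right _ _) _ (norm_nonneg _) hps
    have h5 : min (min c₁ c₂) 1 ≤ c₁ := (min_le_left _ _).trans (min_le_left _ _)
    linarith
  · have h3 := h₂ t ht2 p q hp hq hass (B * H) hBH hpB hqB
    have h4 := hfin κ₂ (Nat.le_add_left _ _) (max ‖vl (pt t (Sum.elim θ η)) p‖
      ‖vl (pt t (Sum.elim θ η)) q‖) ((norm_nonneg _).trans (le_max_left _ _)) (max_lt hps hqs)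
    have h5 : min (min c₁ c₂) 1 ≤ c₂ := (min_le_left _ _).trans (min_le_right _ _)
    linarith

/-- there is a small relation for `u` over the numbers `η` -/
def Near (η : ρ → ℂ) (d w : ℕ) (H : ℝ) (u : ℂ) : Prop :=
  ∃ P : MvPolynomial (Option ρ) ℤ, P ≠ 0 ∧ Bd d H P ∧ ‖vl (pt u η) P‖ ≤ 1 / H ^ w

/-- there is a relation for `u` over the numbers `η` -/
def Alg (η : ρ → ℂ) (d : ℕ) (u : ℂ) : Prop :=
  ∃ P : MvPolynomial (Option ρ) ℤ, P ≠ 0 ∧ (∀ o, P.degreeOf o ≤ d) ∧ vl (pt u η) P = 0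

/-- **The dichotomy of scales.** -/
theorem dich (θ : ι → ℂ) (η : ρ → ℂ) (hM : Meas (Sum.elim θ η)) (d M A : ℕ) : ∃ w : ℕ,
    ∀ T τ₀ : ℝ, 0 < τ₀ → ∃ H₀ : ℝ, 1 ≤ H₀ ∧ ∀ t : ℂ, τ₀ ≤ ‖t‖ → ‖t‖ ≤ T → ∀ m : ι → ℤ,
      (∀ i, |m i| ≤ M) → ∀ H : ℝ, H₀ ≤ H → Near η d w H (um t θ m) →
      (Alg η d (um t θ m) ∧ ∀ Y : ℝ, H ≤ Y → ∀ m' : ι → ℤ, (∀ i, |m' i| ≤ M) → m' ≠ m →
        ¬ Near η d w Y (um t θ m')) ∨
      ∃ Z : ℝ, H ≤ Z ∧ (∀ Y : ℝ, H ≤ Y → Y ≤ Z → ∀ m' : ι → ℤ, (∀ i, |m' i| ≤ M) → m' ≠ m →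
        ¬ Near η d w Y (um t θ m')) ∧
        ∀ Y : ℝ, Z < Y → Y ≤ Z ^ A → ∀ m' : ι → ℤ, (∀ i, |m' i| ≤ M) →
          ¬ Near η d w Y (um t θ m') := by
  obtain ⟨d', hd'⟩ : ∃ d' : ℕ, d' = d + M * d := ⟨_, rfl⟩
  obtain ⟨κ₁, h₁⟩ := excl (Sum.elim θ η) hM d'
  obtain ⟨κ₂, h₂⟩ := sep_pt (Sum.elim θ η) hM d'
  obtain ⟨B, hB, hfac⟩ := small_factor (Option (ι ⊕ ρ)) d'
  obtain ⟨L, hL, hsize⟩ := tr_size θ d M
  obtain ⟨N, hN⟩ : ∃ N : ℕ, N = nf (Option (ι ⊕ ρ)) d' := ⟨_, rfl⟩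
  obtain ⟨W, hW⟩ : ∃ W : ℕ, W = A * κ₂ + κ₂ + κ₁ + 1 := ⟨_, rfl⟩
  refine ⟨W * N + 1, fun T τ₀ hτ₀ => ?_⟩
  obtain ⟨c₁, hc₁, h₁⟩ := h₁ τ₀ hτ₀
  obtain ⟨c₂, hc₂, h₂⟩ := h₂ T
  obtain ⟨H₀, hH₀⟩ : ∃ H₀ : ℝ, H₀ = 1 + L + B ^ κ₁ / c₁ + B ^ κ₂ / c₂ := ⟨_, rfl⟩
  have hq1 : 0 < B ^ κ₁ / c₁ := by positivity
  have hq2 : 0 < B ^ κ₂ / c₂ := by positivity
  refine ⟨H₀, by linarith, fun t ht1 ht2 m hm H hH hnear => ?_⟩
  have hθ0 : ∀ i, θ i ≠ 0 := fun i => meas_ne hM (Sum.inl i)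
  -- small factors
  have key : ∀ (k : ι → ℤ) (Y : ℝ), H₀ ≤ Y → (∀ i, |k i| ≤ M) → Near η d (W * N + 1) Y (um t θ k) →
      ∃ R : MvPolynomial (Option ρ) ℤ, R ≠ 0 ∧ Bd d Y R ∧ ∃ p, Irreducible p ∧ p ∣ tr d k R ∧
        Bd d' (B * Y) p ∧ ‖vl (pt t (Sum.elim θ η)) p‖ < 1 / Y ^ W := by
    intro k Y hY hk ⟨R, hR, hRY, hs⟩
    have hY1 : 1 ≤ Y := by linarith
    have hY0 : 0 < Y := by linarith
    refine ⟨R, hR, hRY, hfac _ _ (tr_ne d k R hR) Y hY0.le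
      (by rw [hd']; exact tr_Bd d M k hk R Y hRY hY0.le) (1 / Y ^ W) (by positivity)
      (by rw [div_le_one (by positivity)]; exact one_le_pow₀ hY1) ?_⟩
    rw [tr_val d k t θ hθ0 η R (hRY.1 none), norm_mul, ← hN]
    calc ‖∏ i, θ i ^ ((-k i).toNat * d)‖ * ‖vl (pt (um t θ k) η) R‖
        ≤ L * (1 / Y ^ (W * N + 1)) := by
          have := hsize k hk
          gcongr
      _ < Y * (1 / Y ^ (W * N + 1)) := mul_lt_mul_of_pos_right (by linarith) (by positivity)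
      _ = (1 / Y ^ W) ^ N := by rw [div_pow, one_pow, ← pow_mul, pow_succ]; field_simp
  have hbig : ∀ (κ' : ℕ) (c' : ℝ), 0 < c' → B ^ κ' / c' < H₀ → ∀ Y : ℝ, H₀ ≤ Y → ∀ v : ℝ, 0 ≤ v →
      v ≤ 1 / Y ^ (κ' + 1) → (B * Y) ^ κ' * v < c' := by
    intro κ' c' hc' hH' Y hY v hv0 hv
    have hY0 : 0 < Y := by linarith
    calc (B * Y) ^ κ' * v ≤ (B * Y) ^ κ' * (1 / Y ^ (κ' + 1)) :=
          mul_le_mul_of_nonneg_left hv (by positivity)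
      _ = B ^ κ' / Y := by rw [mul_pow, pow_succ]; field_simp
      _ < c' := by
          rw [div_lt_iff₀ hY0]
          rw [div_lt_iff₀ hc'] at hH'
          nlinarith
  have hmono : ∀ (Y : ℝ), 1 ≤ Y → ∀ k : ℕ, k ≤ W → 1 / Y ^ W ≤ 1 / Y ^ k := fun Y hY k hk =>
    one_div_le_one_div_of_le (by positivity) (pow_le_pow_right₀ hY hk)
  obtain ⟨P, hP, hPH, p, hp, hpP, hpB, hps⟩ := key m H hH hm hnear
  have hH1 : 1 ≤ H := by linarith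
  -- between the scales
  have between : ∀ Y : ℝ, H ≤ Y → ‖vl (pt t (Sum.elim θ η)) p‖ ≤ 1 / Y ^ W → ∀ m' : ι → ℤ,
      (∀ i, |m' i| ≤ M) → m' ≠ m → ¬ Near η d (W * N + 1) Y (um t θ m') := by
    intro Y hHY hpY m' hm' hne hn
    have hY₀ : H₀ ≤ Y := hH.trans hHY
    have hY1 : 1 ≤ Y := by linarith
    obtain ⟨Q, hQ, hQY, q, hq, hqQ, hqB, hqs⟩ := key m' Y hY₀ hm' hn
    have hBY : 1 ≤ B * Y := one_le_mul_of_one_le_of_one_le hB hY1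
    have hpB' : Bd d' (B * Y) p := hpB.mono (mul_le_mul_of_nonneg_left hHY (by linarith))
    by_cases hass : Associated p q
    · have h3 := h₁ t ht1 p hp.ne_zero (tr_common d m m' (Ne.symm hne) P Q hP hQ (hPH.1 none)
        (hQY.1 none) p hp hpP (hass.dvd.trans hqQ)) (B * Y) hBY hpB'
      have h4 := hbig κ₁ c₁ hc₁ (by linarith) Y hY₀ _ (norm_nonneg _)
        (hpY.trans (hmono Y hY1 (κ₁ + 1) (by omega)))
      linarith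
    · have h3 := h₂ t ht2 p q hp hq hass (B * Y) hBY hpB' hqB
      have h4 := hbig κ₂ c₂ hc₂ (by linarith) Y hY₀ (max ‖vl (pt t (Sum.elim θ η)) p‖
        ‖vl (pt t (Sum.elim θ η)) q‖) ((norm_nonneg _).trans (le_max_left _ _))
        ((max_le hpY hqs.le).trans (hmono Y hY1 (κ₂ + 1) (by omega)))
      linarith
  by_cases hzero : vl (pt t (Sum.elim θ η)) p = 0
  · left
    refine ⟨⟨P, hP, hPH.1, ?_⟩, fun Y hHY => between Y hHY ?_⟩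
    · obtain ⟨g, hg⟩ := hpP
      have h3 : vl (pt t (Sum.elim θ η)) (tr d m P) = 0 := by rw [hg, vl_mul, hzero, zero_mul]
      rw [tr_val d m t θ hθ0 η P (hPH.1 none)] at h3
      rcases mul_eq_zero.1 h3 with h4 | h4
      · exact absurd h4 (Finset.prod_ne_zero_iff.2 fun i _ => pow_ne_zero _ (hθ0 i))
      · exact h4
    · rw [hzero, norm_zero]
      have : 0 < Y := by linarith
      positivity
  · right
    have hpos : 0 < ‖vl (pt t (Sum.elim θ η)) p‖ := norm_pos_iff.2 hzero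
    obtain ⟨Z, hZ⟩ : ∃ Z : ℝ, Z = (1 / ‖vl (pt t (Sum.elim θ η)) p‖) ^ ((W : ℝ)⁻¹) := ⟨_, rfl⟩
    have hZ0 : 0 < Z := by rw [hZ]; positivity
    have hZW : Z ^ W = 1 / ‖vl (pt t (Sum.elim θ η)) p‖ := by
      rw [hZ]; exact Real.rpow_inv_natCast_pow (by positivity) (by omega)
    have hpZ : ‖vl (pt t (Sum.elim θ η)) p‖ = 1 / Z ^ W := by rw [hZW]; simp
    have hHZ : H ≤ Z := by
      by_contra hcon
      push Not at hcon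
      have h3 : Z ^ W < H ^ W := pow_lt_pow_left₀ hcon hZ0.le (by omega)
      have h4 : 1 / H ^ W < 1 / Z ^ W := one_div_lt_one_div_of_lt (by positivity) h3
      rw [← hpZ] at h4
      linarith
    refine ⟨Z, hHZ, fun Y hHY hYZ => between Y hHY ?_, fun Y hZY hYA m' hm' hn => ?_⟩
    · rw [hpZ]
      have hY0 : 0 < Y := by linarith
      exact one_div_le_one_div_of_le (by positivity) (pow_le_pow_left₀ hY0.le hYZ _)
    · have hZ₀ : H₀ ≤ Z := hH.trans hHZ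
      have hY₀ : H₀ ≤ Y := by linarith
      have hY1 : 1 ≤ Y := by linarith
      have hY0 : 0 < Y := by linarith
      obtain ⟨Q, hQ, hQY, q, hq, hqQ, hqB, hqs⟩ := key m' Y hY₀ hm' hn
      have hBY : 1 ≤ B * Y := one_le_mul_of_one_le_of_one_le hB hY1
      have hqp : ‖vl (pt t (Sum.elim θ η)) q‖ < ‖vl (pt t (Sum.elim θ η)) p‖ := by
        rw [hpZ]
        refine hqs.trans_le (one_div_le_one_div_of_le (by positivity) ?_)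
        exact pow_le_pow_left₀ hZ0.le hZY.le _
      have hass : ¬ Associated p q := fun h => by
        rw [vl_assoc _ p q h] at hqp
        exact lt_irrefl _ hqp
      have h3 := h₂ t ht2 p q hp hq hass (B * Y) hBY
        (hpB.mono (mul_le_mul_of_nonneg_left (hHZ.trans hZY.le) (by linarith))) hqB
      rw [max_eq_left hqp.le, hpZ] at h3
      have h4 : (B * Y) ^ κ₂ * (1 / Z ^ W) ≤ B ^ κ₂ / Z := by
        calc (B * Y) ^ κ₂ * (1 / Z ^ W) ≤ (B * Z ^ A) ^ κ₂ * (1 / Z ^ (A * κ₂ + 1)) := by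
              have h5 : 1 / Z ^ W ≤ 1 / Z ^ (A * κ₂ + 1) :=
                one_div_le_one_div_of_le (by positivity) (pow_le_pow_right₀ (by linarith) (by omega))
              gcongr
          _ = B ^ κ₂ / Z := by rw [mul_pow, ← pow_mul, pow_succ]; field_simp
      have h6 : B ^ κ₂ / Z < c₂ := by
        rw [div_lt_iff₀ hZ0]
        have h7 : B ^ κ₂ / c₂ < Z := by linarith
        rw [div_lt_iff₀ hc₂] at h7
        linarith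
      linarith

end Pool.Agent.H488.M
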