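import Pool.Agent.H596.Q.One
import Pool.Graph.R_pool_sql_team_seeded_63374d34.N743.SS.LenM

/-!
# Elimination of one arbitrary number against numbers with a measure of algebraic independence
-/

set_option autoImplicit false

namespace Pool.Agent.H488.M

open Polynomial
open Pool.Agent.N743.SS (lenM isLenM lenM_eq le_lenM)

/-- integer polynomials of degree at most `d` in every variable, with coefficients at most `H` -/
def Bd {τ : Type} (d : ℕ) (H : ℝ) (P : MvPolynomial τ ℤ) : Prop :=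
  (∀ o, P.degreeOf o ≤ d) ∧ ∀ m, |((P.coeff m : ℤ) : ℝ)| ≤ H

lemma Bd.mono {τ : Type} {d : ℕ} {H H' : ℝ} {P : MvPolynomial τ ℤ} (h : Bd d H P) (hH : H ≤ H') :
    Bd d H' P := ⟨h.1, fun m => (h.2 m).trans hH⟩

/-- a measure of algebraic independence, polynomial in the height -/
def Meas {σ : Type} (θ : σ → ℂ) : Prop :=
  ∀ d : ℕ, ∃ κ : ℕ, ∃ c : ℝ, 0 < c ∧ ∀ P : MvPolynomial σ ℤ, P ≠ 0 → ∀ H : ℝ, 1 ≤ H → Bd d H P →
    c ≤ H ^ κ * ‖MvPolynomial.aeval θ P‖

/-- the point `(t, θ)` -/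
def pt {σ : Type} (t : ℂ) (θ : σ → ℂ) : Option σ → ℂ := fun o => o.elim t θ

/-- the value of a polynomial at a point -/
noncomputable def vl {τ : Type} (x : τ → ℂ) (P : MvPolynomial τ ℤ) : ℂ := MvPolynomial.aeval x P

lemma vl_mul {τ : Type} (x : τ → ℂ) (P Q : MvPolynomial τ ℤ) : vl x (P * Q) = vl x P * vl x Q := by
  rw [vl, vl, vl, map_mul]

variable {σ : Type}

lemma vl_eq (t : ℂ) (θ : σ → ℂ) (P : MvPolynomial (Option σ) ℤ) :
    vl (pt t θ) P = ((MvPolynomial.optionEquivLeft ℤ σ P).map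
      ((MvPolynomial.aeval θ : MvPolynomial σ ℤ →ₐ[ℤ] ℂ) :
        MvPolynomial σ ℤ →+* ℂ)).eval t := by
  have h : ((MvPolynomial.aeval (pt t θ) :
      MvPolynomial (Option σ) ℤ →ₐ[ℤ] ℂ) : MvPolynomial (Option σ) ℤ →+* ℂ) =
      ((evalRingHom t).comp (mapRingHom
        ((MvPolynomial.aeval θ : MvPolynomial σ ℤ →ₐ[ℤ] ℂ) :
        MvPolynomial σ ℤ →+* ℂ))).comp
        ((MvPolynomial.optionEquivLeft ℤ σ : MvPolynomial (Option σ) ℤ ≃ₐ[ℤ] _) :
          MvPolynomial (Option σ) ℤ →+* (MvPolynomial σ ℤ)[X]) := by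
    refine MvPolynomial.ringHom_ext (fun r => ?_) fun o => ?_
    · simp
    · rcases o with _ | i
      · simp [MvPolynomial.optionEquivLeft_X_none, pt]
      · simp [MvPolynomial.optionEquivLeft_X_some, pt]
  exact congrArg (fun f : MvPolynomial (Option σ) ℤ →+* ℂ => f P) h

/-! ## Degrees and lengths of determinants -/

lemma degreeOf_det {N : ℕ} (M : Matrix (Fin N) (Fin N) (MvPolynomial σ ℤ)) (o : σ) (d : ℕ)
    (hM : ∀ i j, (M i j).degreeOf o ≤ d) : M.det.degreeOf o ≤ N * d := by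
  classical
  rw [Matrix.det_apply]
  refine (MvPolynomial.degreeOf_sum_le _ _ _).trans (Finset.sup_le fun π _ => ?_)
  have h1 : (∏ i, M (π i) i).degreeOf o ≤ N * d := by
    refine (MvPolynomial.degreeOf_prod_le _ _ _).trans ?_
    calc ∑ i, (M (π i) i).degreeOf o ≤ ∑ _i : Fin N, d := Finset.sum_le_sum fun i _ => hM _ _
      _ = N * d := by simp
  rcases Int.units_eq_one_or (Equiv.Perm.sign π) with h3 | h3
  · rw [h3, one_smul]; exact h1
  · rw [h3, Units.neg_smul, one_smul]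
    rwa [MvPolynomial.degreeOf, MvPolynomial.degrees_neg]

lemma degreeOf_res (P Q : (MvPolynomial σ ℤ)[X]) (o : σ) (d : ℕ)
    (hP : ∀ i, (P.coeff i).degreeOf o ≤ d) (hQ : ∀ i, (Q.coeff i).degreeOf o ≤ d) (m n : ℕ) :
    (resultant P Q m n).degreeOf o ≤ (m + n) * d := by
  refine degreeOf_det _ _ _ fun i j => ?_
  rw [sylvester, Matrix.of_apply]
  refine Fin.addCases (fun j₁ => ?_) (fun j₁ => ?_) j
  · rw [Fin.addCases_left]
    split_ifs
    · exact hQ _
    · rw [MvPolynomial.degreeOf_zero]; exact Nat.zero_le _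
  · rw [Fin.addCases_right]
    split_ifs
    · exact hP _
    · rw [MvPolynomial.degreeOf_zero]; exact Nat.zero_le _

variable [Fintype σ]

/-- the number of monomials -/
noncomputable def nb (σ : Type) [Fintype σ] (d : ℕ) : ℕ := (Pool.Agent.H596.Q.box σ d).card

lemma one_le_nb (d : ℕ) : 1 ≤ nb σ d :=
  Finset.card_pos.2 ⟨0, Pool.Agent.H596.Q.mem_box d 0 fun _ => Nat.zero_le _⟩

lemma lenM_le (d : ℕ) (P : MvPolynomial σ ℤ) (H : ℝ) (hH : 0 ≤ H) (h : Bd d H P) :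
    lenM P ≤ nb σ d * H := by
  classical
  rw [lenM]
  calc ∑ s ∈ P.support, |((P.coeff s : ℤ) : ℝ)| ≤ ∑ _s ∈ P.support, H :=
        Finset.sum_le_sum fun s _ => h.2 s
    _ = P.support.card * H := by rw [Finset.sum_const, nsmul_eq_mul]
    _ ≤ _ := by
        refine mul_le_mul_of_nonneg_right ?_ hH
        exact_mod_cast Finset.card_le_card fun m hm => Pool.Agent.H596.Q.mem_box d m fun i =>
          (MvPolynomial.degreeOf_le_iff.1 (h.1 i)) m hm

/-- the size of a value -/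
lemma vl_le (θ : σ → ℂ) (d : ℕ) : ∃ B : ℝ, 1 ≤ B ∧ ∀ (P : MvPolynomial σ ℤ) (H : ℝ), 0 ≤ H →
    Bd d H P → ‖MvPolynomial.aeval θ P‖ ≤ B * H := by
  classical
  obtain ⟨B, hB⟩ : ∃ B : ℝ, B = ∏ i, (max 1 ‖θ i‖) ^ d := ⟨_, rfl⟩
  have hB1 : 1 ≤ B := by
    rw [hB]
    calc (1 : ℝ) = ∏ _i : σ, (1 : ℝ) := by simp
      _ ≤ _ := Finset.prod_le_prod (fun _ _ => zero_le_one) fun i _ =>
          one_le_pow₀ (le_max_left _ _)
  have hn : (1 : ℝ) ≤ nb σ d := by exact_mod_cast one_le_nb d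
  refine ⟨nb σ d * B, one_le_mul_of_one_le_of_one_le hn hB1, fun P H hH h => ?_⟩
  have h1 : MvPolynomial.aeval θ P = ∑ m ∈ P.support, ((P.coeff m : ℤ) : ℂ) * ∏ i, θ i ^ m i := by
    rw [MvPolynomial.aeval_eq_eval₂Hom, MvPolynomial.coe_eval₂Hom, MvPolynomial.eval₂_eq']
    rfl
  rw [h1]
  refine (norm_sum_le _ _).trans ?_
  calc ∑ m ∈ P.support, ‖((P.coeff m : ℤ) : ℂ) * ∏ i, θ i ^ m i‖
      ≤ ∑ m ∈ P.support, |((P.coeff m : ℤ) : ℝ)| * B := by
        refine Finset.sum_le_sum fun m hm => ?_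
        rw [norm_mul, Complex.norm_intCast, norm_prod]
        refine mul_le_mul_of_nonneg_left ?_ (abs_nonneg _)
        rw [hB]
        refine Finset.prod_le_prod (fun _ _ => norm_nonneg _) fun i _ => ?_
        rw [norm_pow]
        calc ‖θ i‖ ^ m i ≤ (max 1 ‖θ i‖) ^ m i := pow_le_pow_left₀ (norm_nonneg _) (le_max_right _ _) _
          _ ≤ _ := pow_le_pow_right₀ (le_max_left _ _)
              ((MvPolynomial.degreeOf_le_iff.1 (h.1 i)) m hm)
    _ = lenM P * B := by rw [lenM, Finset.sum_mul]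
    _ ≤ (nb σ d * H) * B := mul_le_mul_of_nonneg_right (lenM_le d P H hH h) (by linarith)
    _ = _ := by ring

/-- **Elimination.** -/
theorem elimM (θ : σ → ℂ) (hθ : Meas θ) (d : ℕ) :
    ∃ κ : ℕ, ∀ T : ℝ, ∃ c : ℝ, 0 < c ∧ ∀ t : ℂ, ‖t‖ ≤ T → ∀ P Q : MvPolynomial (Option σ) ℤ,
      (∀ D, D ∣ P → D ∣ Q → D.degreeOf none = 0) → ∀ H : ℝ, 1 ≤ H → Bd d H P → Bd d H Q →
      c ≤ H ^ κ * max ‖vl (pt t θ) P‖ ‖vl (pt t θ) Q‖ := by
  classical
  obtain ⟨κ, c, hc, hm⟩ := hθ (2 * d * d + d)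
  obtain ⟨B, hB1, hB⟩ := vl_le θ d
  refine ⟨2 * d * κ + κ + 2 * d, fun T => ?_⟩
  obtain ⟨T', hT'⟩ : ∃ T' : ℝ, T' = max 1 T := ⟨_, rfl⟩
  have hT1 : 1 ≤ T' := by rw [hT']; exact le_max_left _ _
  obtain ⟨F, hF⟩ : ∃ F : ℝ, F = ((2 * d).factorial : ℝ) * (nb σ d) ^ (2 * d) := ⟨_, rfl⟩
  have hn : (1 : ℝ) ≤ nb σ d := by exact_mod_cast one_le_nb d
  have hfac : (1 : ℝ) ≤ ((2 * d).factorial : ℝ) := by
    exact_mod_cast Nat.one_le_iff_ne_zero.2 (Nat.factorial_ne_zero _)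
  have hF1 : 1 ≤ F := by
    rw [hF]; exact one_le_mul_of_one_le_of_one_le hfac (one_le_pow₀ hn)
  obtain ⟨G, hG⟩ : ∃ G : ℝ, G = (2 * d + 1) * T' ^ (2 * d) * (((2 * d).factorial : ℝ) * B ^ (2 * d)) :=
    ⟨_, rfl⟩
  have hG1 : 1 ≤ G := by
    rw [hG]
    have h1 : (1 : ℝ) ≤ 2 * d + 1 := by
      have : (0 : ℝ) ≤ d := Nat.cast_nonneg d
      linarith
    exact one_le_mul_of_one_le_of_one_le (one_le_mul_of_one_le_of_one_le h1 (one_le_pow₀ hT1))
      (one_le_mul_of_one_le_of_one_le hfac (one_le_pow₀ hB1))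
  refine ⟨c / (F ^ κ * G), by positivity, fun t ht P Q hPQ H hH hP hQ => ?_⟩
  have hH0 : 0 < H := by linarith
  obtain ⟨ε, hε⟩ : ∃ ε : ℝ, ε = max ‖vl (pt t θ) P‖ ‖vl (pt t θ) Q‖ := ⟨_, rfl⟩
  have hε0 : 0 ≤ ε := by rw [hε]; exact (norm_nonneg _).trans (le_max_left _ _)
  have hPε : ‖vl (pt t θ) P‖ ≤ ε := by rw [hε]; exact le_max_left _ _
  have hQε : ‖vl (pt t θ) Q‖ ≤ ε := by rw [hε]; exact le_max_right _ _
  rw [← hε]
  set p := MvPolynomial.optionEquivLeft ℤ σ P with hp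
  set q := MvPolynomial.optionEquivLeft ℤ σ Q with hq
  have hcf : ∀ R : MvPolynomial (Option σ) ℤ, Bd d H R → ∀ k,
      Bd d H ((MvPolynomial.optionEquivLeft ℤ σ R).coeff k) := by
    intro R hR k
    refine ⟨fun i => ?_, fun m => ?_⟩
    · rw [MvPolynomial.degreeOf_le_iff]
      intro m hm
      rw [MvPolynomial.mem_support_coeff_optionEquivLeft] at hm
      have h1 := (MvPolynomial.degreeOf_le_iff.1 (hR.1 (some i))) _ hm
      simpa using h1
    · rw [MvPolynomial.optionEquivLeft_coeff_coeff]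
      exact hR.2 _
  have hres : resultant p q ≠ 0 := by
    refine Pool.Agent.H596.Q.res_ne' _ _ fun D hD1 hD2 => ?_
    have e1 : D = MvPolynomial.optionEquivLeft ℤ σ ((MvPolynomial.optionEquivLeft ℤ σ).symm D) :=
      (AlgEquiv.apply_symm_apply _ _).symm
    rw [e1, MvPolynomial.natDegree_optionEquivLeft]
    rw [e1] at hD1 hD2
    exact hPQ _ ((map_dvd_iff (MvPolynomial.optionEquivLeft ℤ σ)).1 hD1)
      ((map_dvd_iff (MvPolynomial.optionEquivLeft ℤ σ)).1 hD2)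
  have hne : p ≠ 0 ∨ q ≠ 0 := by
    by_contra hcon
    push Not at hcon
    rw [hp, hq, EmbeddingLike.map_eq_zero_iff, EmbeddingLike.map_eq_zero_iff] at hcon
    have h1 := hPQ (MvPolynomial.X none) (by rw [hcon.1]; exact dvd_zero _)
      (by rw [hcon.2]; exact dvd_zero _)
    rw [MvPolynomial.degreeOf_X, if_pos rfl] at h1
    exact one_ne_zero h1
  have hpd : p.natDegree ≤ d := by
    rw [hp, MvPolynomial.natDegree_optionEquivLeft]; exact hP.1 none
  have hqd : q.natDegree ≤ d := by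
    rw [hq, MvPolynomial.natDegree_optionEquivLeft]; exact hQ.1 none
  set ρ : MvPolynomial σ ℤ →+* ℂ := ((MvPolynomial.aeval θ : MvPolynomial σ ℤ →ₐ[ℤ] ℂ) :
        MvPolynomial σ ℤ →+* ℂ) with hρ
  rw [vl_eq, ← hp, ← hρ] at hPε
  rw [vl_eq, ← hq, ← hρ] at hQε
  -- the trivial case
  by_cases hmn : p.natDegree + q.natDegree = 0
  · have hkey : ∃ x : MvPolynomial σ ℤ, x ≠ 0 ∧ Bd d H x ∧ ‖ρ x‖ ≤ ε := by
      rcases hne with h0 | h0
      · have h1 := eq_C_of_natDegree_eq_zero (show p.natDegree = 0 by omega)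
        refine ⟨p.coeff 0, fun h2 => h0 (by rw [h1, h2, C_0]), hcf P hP 0, ?_⟩
        rw [h1, map_C, eval_C] at hPε
        exact hPε
      · have h1 := eq_C_of_natDegree_eq_zero (show q.natDegree = 0 by omega)
        refine ⟨q.coeff 0, fun h2 => h0 (by rw [h1, h2, C_0]), hcf Q hQ 0, ?_⟩
        rw [h1, map_C, eval_C] at hQε
        exact hQε
    obtain ⟨x, hx0, hxH, hxε⟩ := hkey
    have h1 := hm x hx0 H hH ⟨fun o => (hxH.1 o).trans (Nat.le_add_left _ _), hxH.2⟩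
    have h2 : c ≤ H ^ (2 * d * κ + κ + 2 * d) * ε := by
      refine h1.trans ?_
      refine mul_le_mul (pow_le_pow_right₀ hH (by nlinarith [Nat.zero_le (d * κ)])) hxε
        (norm_nonneg _) (by positivity)
    refine le_trans (div_le_self hc.le ?_) h2
    exact one_le_mul_of_one_le_of_one_le (one_le_pow₀ hF1) hG1
  set m := p.natDegree with hm'
  set n := q.natDegree with hn'
  have hnH : 1 ≤ nb σ d * H := one_le_mul_of_one_le_of_one_le hn hH
  have hlen : ∀ z, |(((resultant p q m n).coeff z : ℤ) : ℝ)| ≤ F * H ^ (2 * d) := by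
    intro z
    refine (le_lenM _ z).trans ?_
    refine (Pool.Agent.R523.Gel.res_len (isLenM (ι := σ)) p q m n (nb σ d * H) (nb σ d * H)
      (fun i => lenM_le d _ H hH0.le (hcf P hP i)) (fun i => lenM_le d _ H hH0.le (hcf Q hQ i))).trans ?_
    rw [← pow_add]
    calc ((m + n).factorial : ℝ) * (nb σ d * H) ^ (m + n) ≤
        ((2 * d).factorial : ℝ) * (nb σ d * H) ^ (2 * d) := by
          refine mul_le_mul ?_ (pow_le_pow_right₀ hnH (by omega)) (by positivity) (by positivity)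
          exact_mod_cast Nat.factorial_le (by omega)
      _ = _ := by rw [hF, mul_pow]; ring
  have hHF : 1 ≤ F * H ^ (2 * d) := one_le_mul_of_one_le_of_one_le hF1 (one_le_pow₀ hH)
  have hdeg : ∀ o, (resultant p q m n).degreeOf o ≤ 2 * d * d + d := by
    intro o
    refine (degreeOf_res p q o d (fun i => (hcf P hP i).1 o) (fun i => (hcf Q hQ i).1 o) m n).trans ?_
    have : (m + n) * d ≤ (2 * d) * d := Nat.mul_le_mul_right _ (by omega)
    omega
  have h1 := hm _ hres (F * H ^ (2 * d)) hHF ⟨hdeg, hlen⟩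
  have hBH : 1 ≤ B * H := one_le_mul_of_one_le_of_one_le hB1 hH
  have h2 := Pool.Agent.R523.Gel.res_le (p.map ρ) (q.map ρ) m n natDegree_map_le
    natDegree_map_le (by omega) (B * H) T' ε hBH
    (fun i => by rw [Polynomial.coeff_map]; exact hB _ H hH0.le (hcf P hP i))
    (fun i => by rw [Polynomial.coeff_map]; exact hB _ H hH0.le (hcf Q hQ i)) t hT1
    (ht.trans (by rw [hT']; exact le_max_right _ _)) hPε hQε
  rw [resultant_map_map] at h2
  have h3 : ‖ρ (resultant p q m n)‖ ≤ G * H ^ (2 * d) * ε := by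
    refine h2.trans ?_
    have e1 : ((m : ℝ) + n) ≤ 2 * d + 1 := by
      have : (m : ℝ) ≤ d := by exact_mod_cast hpd
      have : (n : ℝ) ≤ d := by exact_mod_cast hqd
      linarith
    have e2 : T' ^ (m + n) ≤ T' ^ (2 * d) := pow_le_pow_right₀ hT1 (by omega)
    have e3 : ((m + n).factorial : ℝ) ≤ ((2 * d).factorial : ℝ) := by
      exact_mod_cast Nat.factorial_le (by omega)
    have e4 : (B * H) ^ (m + n - 1) ≤ (B * H) ^ (2 * d) := pow_le_pow_right₀ hBH (by omega)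
    calc ((m : ℝ) + n) * (T' ^ (m + n) * ε) * (((m + n).factorial : ℝ) * (B * H) ^ (m + n - 1)) ≤
          (2 * d + 1) * (T' ^ (2 * d) * ε) * (((2 * d).factorial : ℝ) * (B * H) ^ (2 * d)) := by gcongr
      _ = G * H ^ (2 * d) * ε := by rw [hG, mul_pow]; ring
  rw [div_le_iff₀ (by positivity)]
  calc c ≤ (F * H ^ (2 * d)) ^ κ * ‖ρ (resultant p q m n)‖ := h1
    _ ≤ (F * H ^ (2 * d)) ^ κ * (G * H ^ (2 * d) * ε) := mul_le_mul_of_nonneg_left h3 (by positivity)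
    _ = F ^ κ * G * ε * H ^ (2 * d * κ + 2 * d) := by
        rw [mul_pow, ← pow_mul, pow_add]; ring
    _ ≤ F ^ κ * G * ε * H ^ (2 * d * κ + κ + 2 * d) :=
        mul_le_mul_of_nonneg_left (pow_le_pow_right₀ hH (by omega)) (by positivity)
    _ = _ := by ring

end Pool.Agent.H488.M
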