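import Pool.Agent.H488.M.Ab
import Pool.Agent.H488.M.Ins

/-!
# Polynomials in rational functions, and the Jacobian
-/

set_option autoImplicit false

namespace Pool.Agent.H488.M

open Polynomial
open Pool.Agent.N743.SS (lenM isLenM lenM_eq le_lenM isLen_intCast isLen_pow)
open Pool.Agent.H596.Q (factor_height)

section hom

variable {R : Type*} [CommRing R]

/-- the homogenised polynomial `b^n P(a / b)` -/
noncomputable def hom (n : ℕ) (a b : R) (P : ℤ[X]) : R :=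
  ∑ k ∈ Finset.range (n + 1), (P.coeff k : R) * (a ^ k * b ^ (n - k))

lemma map_hom {S : Type*} [CommRing S] (φ : R →+* S) (n : ℕ) (a b : R) (P : ℤ[X]) :
    φ (hom n a b P) = hom n (φ a) (φ b) P := by
  simp [hom]

lemma hom_mul (n m : ℕ) (hm : m ≤ n) (a b : R) (P : ℤ[X]) (hP : P.natDegree ≤ m) :
    hom n a b P = b ^ (n - m) * hom m a b P := by
  rw [hom, hom, Finset.mul_sum, ← Finset.sum_subset
    (Finset.range_subset_range.2 (show m + 1 ≤ n + 1 by omega))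
    (fun k _ hk => by
      rw [Finset.mem_range, not_lt] at hk
      rw [coeff_eq_zero_of_natDegree_lt (by omega), Int.cast_zero, zero_mul])]
  refine Finset.sum_congr rfl fun k hk => ?_
  rw [Finset.mem_range] at hk
  have e1 : n - k = (n - m) + (m - k) := by omega
  rw [e1, pow_add]
  ring

lemma hom_field {K : Type*} [Field K] (n : ℕ) (a b : K) (hb : b ≠ 0) (P : ℤ[X])
    (hP : P.natDegree ≤ n) : hom n a b P = b ^ n * aeval (a / b) P := by
  rw [hom, aeval_eq_sum_range' (show P.natDegree < n + 1 by omega), Finset.mul_sum]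
  refine Finset.sum_congr rfl fun k hk => ?_
  rw [Finset.mem_range] at hk
  have e1 : b ^ n = b ^ (n - k) * b ^ k := by rw [← pow_add]; congr 1; omega
  rw [zsmul_eq_mul, e1, div_pow]
  field_simp

/-- a derivation -/
def IsDer (D : R →+ R) : Prop := ∀ x y, D (x * y) = x * D y + y * D x

lemma IsDer.pow {D : R →+ R} (hD : IsDer D) (a : R) (n : ℕ) :
    D (a ^ n) = n * (a ^ (n - 1) * D a) := by
  have h1 : D 1 = 0 := by
    have := hD 1 1
    rw [one_mul, one_mul] at this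
    linear_combination -this
  induction n with
  | zero => rw [pow_zero, h1]; simp
  | succ n ih =>
    rw [pow_succ, hD, ih, Nat.add_sub_cancel]
    rcases n with _ | n
    · simp
    · rw [Nat.add_sub_cancel]
      push_cast
      ring

/-- the derivative of the homogenised polynomial -/
lemma hom_deriv (D : R →+ R) (hD : IsDer D) (n : ℕ) (a b : R) (P : ℤ[X]) :
    b * D (hom (n + 1) a b P) = hom n a b (derivative P) * (b * D a - a * D b) +
      (n + 1 : ℕ) * hom (n + 1) a b P * D b := by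
  have key : ∀ k ≤ n + 1, b * D (a ^ k * b ^ (n + 1 - k)) =
      (k : R) * a ^ (k - 1) * b ^ (n + 1 - k) * (b * D a - a * D b) +
        (n + 1 : ℕ) * (a ^ k * b ^ (n + 1 - k)) * D b := by
    intro k hk
    obtain ⟨l, hl⟩ : ∃ l, l = n + 1 - k := ⟨_, rfl⟩
    have hkl : (n + 1 : ℕ) = k + l := by omega
    rw [← hl, hkl, hD, hD.pow, hD.pow]
    rcases k with _ | k <;> rcases l with _ | l
    · simp
    · simp only [Nat.cast_zero, zero_mul, mul_zero, add_zero, pow_zero, zero_add, one_mul,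
        Nat.add_sub_cancel]
      push_cast
      ring
    · simp only [Nat.cast_zero, zero_mul, mul_zero, add_zero, pow_zero, zero_add, mul_one, one_mul,
        Nat.add_sub_cancel]
      push_cast
      ring
    · simp only [Nat.add_sub_cancel]
      push_cast
      ring
  have h1 : hom n a b (derivative P) = ∑ k ∈ Finset.range (n + 1 + 1),
      (P.coeff k : R) * ((k : R) * a ^ (k - 1) * b ^ (n + 1 - k)) := by
    rw [Finset.sum_range_succ', hom]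
    simp only [Nat.cast_zero, zero_mul, mul_zero, add_zero]
    refine Finset.sum_congr rfl fun k _ => ?_
    rw [coeff_derivative, Nat.add_sub_cancel, Nat.add_sub_add_right]
    push_cast
    ring
  rw [h1, hom, map_sum, Finset.mul_sum, Finset.sum_mul, Finset.mul_sum, Finset.sum_mul,
    ← Finset.sum_add_distrib]
  refine Finset.sum_congr rfl fun k hk => ?_
  rw [Finset.mem_range] at hk
  have e1 : D ((P.coeff k : R) * (a ^ k * b ^ (n + 1 - k))) =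
      (P.coeff k : R) * D (a ^ k * b ^ (n + 1 - k)) := by
    rw [← zsmul_eq_mul, map_zsmul, zsmul_eq_mul]
  rw [e1]
  have e2 := key k (by omega)
  linear_combination (P.coeff k : R) * e2

/-- a relation of minimal degree -/
lemma hom_min (I : Ideal R) (hI : I.IsPrime) (a b : R) (hb : b ∉ I)
    (hc : ∀ z : ℤ, z ≠ 0 → (z : R) ∉ I) (n : ℕ) (P : ℤ[X]) (hP : P ≠ 0) (hPn : P.natDegree ≤ n)
    (h : hom n a b P ∈ I) : ∃ (m : ℕ) (Q : ℤ[X]), hom (m + 1) a b Q ∈ I ∧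
      hom m a b (derivative Q) ∉ I := by
  classical
  have hex : ∃ m : ℕ, ∃ Q : ℤ[X], Q ≠ 0 ∧ Q.natDegree = m ∧ hom m a b Q ∈ I := by
    refine ⟨P.natDegree, P, hP, rfl, ?_⟩
    rw [hom_mul n P.natDegree hPn a b P le_rfl] at h
    rcases hI.mem_or_mem h with h1 | h1
    · exact absurd (hI.mem_of_pow_mem _ h1) hb
    · exact h1
  obtain ⟨Q, hQ, hQn, hQI⟩ := Nat.find_spec hex
  rcases hm : Nat.find hex with _ | m
  · exfalso
    rw [hm] at hQn hQI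
    rw [hom] at hQI
    simp only [zero_add, Finset.sum_range_one, pow_zero, Nat.sub_self, mul_one] at hQI
    refine hc (Q.coeff 0) (fun h0 => hQ ?_) hQI
    rw [eq_C_of_natDegree_eq_zero hQn, h0, C_0]
  · rw [hm] at hQn hQI
    refine ⟨m, Q, hQI, fun h1 => ?_⟩
    have h2 : derivative Q ≠ 0 := by
      intro h0
      have := derivative_eq_zero.1 h0
      omega
    have h3 : (derivative Q).natDegree = m := by
      have h4 : (derivative Q).natDegree ≤ m := by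
        have := natDegree_derivative_le Q
        omega
      refine le_antisymm h4 (le_natDegree_of_ne_zero ?_)
      rw [coeff_derivative, ← hQn]
      refine mul_ne_zero ?_ (by positivity)
      rw [coeff_natDegree, leadingCoeff_ne_zero]
      exact hQ
    have h4 := Nat.find_min' hex ⟨derivative Q, h2, h3, h1⟩
    omega

/-- **The Jacobian.** -/
lemma jac_mem (p : R) (hp : Prime p) (D₁ D₂ : R →+ R) (hD₁ : IsDer D₁) (hD₂ : IsDer D₂)
    (a₁ b₁ a₂ b₂ : R) (hb₁ : ¬ p ∣ b₁) (hb₂ : ¬ p ∣ b₂) (hc : ∀ z : ℤ, z ≠ 0 → ¬ p ∣ (z : R))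
    (n₁ n₂ : ℕ) (P Q : ℤ[X]) (hP : P ≠ 0) (hQ : Q ≠ 0) (hPn : P.natDegree ≤ n₁)
    (hQn : Q.natDegree ≤ n₂) (h₁ : p ∣ hom n₁ a₁ b₁ P) (h₂ : p ∣ hom n₂ a₂ b₂ Q) :
    p ∣ (b₁ * D₁ a₁ - a₁ * D₁ b₁) * (b₂ * D₂ a₂ - a₂ * D₂ b₂) -
      (b₁ * D₂ a₁ - a₁ * D₂ b₁) * (b₂ * D₁ a₂ - a₂ * D₁ b₂) := by
  have hI : (Ideal.span {p} : Ideal R).IsPrime :=
    (Ideal.span_singleton_prime hp.ne_zero).2 hp
  obtain ⟨m₁, Q₁, hQ₁, hQ₁'⟩ := hom_min (Ideal.span {p}) hI a₁ b₁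
    (by rwa [Ideal.mem_span_singleton]) (fun z hz => by rw [Ideal.mem_span_singleton]; exact hc z hz)
    n₁ P hP hPn (by rwa [Ideal.mem_span_singleton])
  obtain ⟨m₂, Q₂, hQ₂, hQ₂'⟩ := hom_min (Ideal.span {p}) hI a₂ b₂
    (by rwa [Ideal.mem_span_singleton]) (fun z hz => by rw [Ideal.mem_span_singleton]; exact hc z hz)
    n₂ Q hQ hQn (by rwa [Ideal.mem_span_singleton])
  rw [Ideal.mem_span_singleton] at hQ₁ hQ₁' hQ₂ hQ₂'
  obtain ⟨g, hg⟩ := hQ₁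
  obtain ⟨h, hh⟩ := hQ₂
  have f1 := hom_deriv D₁ hD₁ m₁ a₁ b₁ Q₁
  have f2 := hom_deriv D₂ hD₂ m₁ a₁ b₁ Q₁
  have f3 := hom_deriv D₁ hD₁ m₂ a₂ b₂ Q₂
  have f4 := hom_deriv D₂ hD₂ m₂ a₂ b₂ Q₂
  rw [hg, hD₁] at f1
  rw [hg, hD₂] at f2
  rw [hh, hD₁] at f3
  rw [hh, hD₂] at f4
  set G := hom m₁ a₁ b₁ (derivative Q₁) with hG
  set K := hom m₂ a₂ b₂ (derivative Q₂) with hK
  have h3 : p ∣ G * K * ((b₁ * D₁ a₁ - a₁ * D₁ b₁) * (b₂ * D₂ a₂ - a₂ * D₂ b₂) -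
      (b₁ * D₂ a₁ - a₁ * D₂ b₁) * (b₂ * D₁ a₂ - a₂ * D₁ b₂)) := by
    -- `G W ≡ b g D p`
    have g1 : G * (b₁ * D₁ a₁ - a₁ * D₁ b₁) =
        b₁ * g * D₁ p + p * (b₁ * D₁ g - (m₁ + 1 : ℕ) * g * D₁ b₁) := by
      linear_combination -f1
    have g2 : G * (b₁ * D₂ a₁ - a₁ * D₂ b₁) =
        b₁ * g * D₂ p + p * (b₁ * D₂ g - (m₁ + 1 : ℕ) * g * D₂ b₁) := by
      linear_combination -f2
    have g3 : K * (b₂ * D₁ a₂ - a₂ * D₁ b₂) =
        b₂ * h * D₁ p + p * (b₂ * D₁ h - (m₂ + 1 : ℕ) * h * D₁ b₂) := by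
      linear_combination -f3
    have g4 : K * (b₂ * D₂ a₂ - a₂ * D₂ b₂) =
        b₂ * h * D₂ p + p * (b₂ * D₂ h - (m₂ + 1 : ℕ) * h * D₂ b₂) := by
      linear_combination -f4
    obtain ⟨u₁, hu₁⟩ : ∃ u, u = b₁ * D₁ g - (m₁ + 1 : ℕ) * g * D₁ b₁ := ⟨_, rfl⟩
    obtain ⟨u₂, hu₂⟩ : ∃ u, u = b₁ * D₂ g - (m₁ + 1 : ℕ) * g * D₂ b₁ := ⟨_, rfl⟩
    obtain ⟨u₃, hu₃⟩ : ∃ u, u = b₂ * D₁ h - (m₂ + 1 : ℕ) * h * D₁ b₂ := ⟨_, rfl⟩
    obtain ⟨u₄, hu₄⟩ : ∃ u, u = b₂ * D₂ h - (m₂ + 1 : ℕ) * h * D₂ b₂ := ⟨_, rfl⟩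
    rw [← hu₁] at g1
    rw [← hu₂] at g2
    rw [← hu₃] at g3
    rw [← hu₄] at g4
    refine ⟨b₁ * g * D₁ p * u₄ + u₁ * (b₂ * h * D₂ p) + p * u₁ * u₄ -
      (b₁ * g * D₂ p * u₃ + u₂ * (b₂ * h * D₁ p) + p * u₂ * u₃), ?_⟩
    calc G * K * ((b₁ * D₁ a₁ - a₁ * D₁ b₁) * (b₂ * D₂ a₂ - a₂ * D₂ b₂) -
          (b₁ * D₂ a₁ - a₁ * D₂ b₁) * (b₂ * D₁ a₂ - a₂ * D₁ b₂))
        = (G * (b₁ * D₁ a₁ - a₁ * D₁ b₁)) * (K * (b₂ * D₂ a₂ - a₂ * D₂ b₂)) -
          (G * (b₁ * D₂ a₁ - a₁ * D₂ b₁)) * (K * (b₂ * D₁ a₂ - a₂ * D₁ b₂)) := by ring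
      _ = _ := by rw [g1, g2, g3, g4]; ring
  rcases hp.dvd_or_dvd h3 with h4 | h4
  · rcases hp.dvd_or_dvd h4 with h5 | h5
    · exact absurd h5 hQ₁'
    · exact absurd h5 hQ₂'
  · exact h4

end hom

/-! ## Polynomials in several variables -/

variable {τ : Type} [Fintype τ]

omit [Fintype τ] in
lemma degreeOf_hom (n e : ℕ) (a b : MvPolynomial τ ℤ) (o : τ) (ha : a.degreeOf o ≤ e)
    (hb : b.degreeOf o ≤ e) (P : ℤ[X]) : (hom n a b P).degreeOf o ≤ n * e := by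
  classical
  rw [hom]
  refine (MvPolynomial.degreeOf_sum_le _ _ _).trans (Finset.sup_le fun k hk => ?_)
  rw [Finset.mem_range] at hk
  refine (MvPolynomial.degreeOf_mul_le _ _ _).trans ?_
  have h0 : ((P.coeff k : ℤ) : MvPolynomial τ ℤ).degreeOf o = 0 := by
    have : ((P.coeff k : ℤ) : MvPolynomial τ ℤ) = MvPolynomial.C (P.coeff k) := by simp
    rw [this, MvPolynomial.degreeOf_C]
  rw [h0, zero_add]
  refine (MvPolynomial.degreeOf_mul_le _ _ _).trans ?_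
  have h1 := MvPolynomial.degreeOf_pow_le o a k
  have h2 := MvPolynomial.degreeOf_pow_le o b (n - k)
  have h3 : k * a.degreeOf o ≤ k * e := Nat.mul_le_mul_left _ ha
  have h4 : (n - k) * b.degreeOf o ≤ (n - k) * e := Nat.mul_le_mul_left _ hb
  have h5 : k * e + (n - k) * e = n * e := by rw [← Nat.add_mul]; congr 1; omega
  omega

omit [Fintype τ] in
lemma len_hom (n : ℕ) (a b : MvPolynomial τ ℤ) (Λ : ℝ) (hΛ : 1 ≤ Λ) (ha : lenM a ≤ Λ)
    (hb : lenM b ≤ Λ) (P : ℤ[X]) (H : ℝ) (hH : ∀ k, |((P.coeff k : ℤ) : ℝ)| ≤ H) :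
    lenM (hom n a b P) ≤ ((n + 1) * Λ ^ n) * H := by
  have hL := isLenM (ι := τ)
  have hH0 : 0 ≤ H := (abs_nonneg _).trans (hH 0)
  rw [hom]
  refine (hL.sum _ _).trans ?_
  have h1 : ∀ k ∈ Finset.range (n + 1),
      lenM ((P.coeff k : MvPolynomial τ ℤ) * (a ^ k * b ^ (n - k))) ≤ H * Λ ^ n := by
    intro k hk
    rw [Finset.mem_range] at hk
    refine (hL.mul _ _).trans (mul_le_mul ((isLen_intCast hL _).trans (hH k)) ?_ (hL.nonneg _) hH0)
    refine (hL.mul _ _).trans ?_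
    have e1 : Λ ^ n = Λ ^ k * Λ ^ (n - k) := by rw [← pow_add]; congr 1; omega
    rw [e1]
    refine mul_le_mul ((isLen_pow hL a k).trans (pow_le_pow_left₀ (hL.nonneg _) ha _))
      ((isLen_pow hL b _).trans (pow_le_pow_left₀ (hL.nonneg _) hb _)) (hL.nonneg _) (by positivity)
  refine (Finset.sum_le_sum h1).trans (le_of_eq ?_)
  rw [Finset.sum_const, Finset.card_range, nsmul_eq_mul]
  push_cast
  ring

/-- a lower bound for the values of the factors of a fixed polynomial -/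
lemma factor_lb (x : τ → ℂ) (J : MvPolynomial τ ℤ) (hJ : vl x J ≠ 0) : ∃ c : ℝ, 0 < c ∧
    ∀ p, p ∣ J → c ≤ ‖vl x p‖ := by
  classical
  have hJ0 : J ≠ 0 := fun h => hJ (by rw [h, vl, map_zero])
  obtain ⟨d, hd⟩ : ∃ d : ℕ, ∀ o, J.degreeOf o ≤ d :=
    ⟨∑ o, J.degreeOf o, fun o => Finset.single_le_sum (f := fun o => J.degreeOf o)
      (fun _ _ => Nat.zero_le _) (Finset.mem_univ o)⟩
  obtain ⟨B, hB, hfac⟩ := factor_height (τ := τ) d
  obtain ⟨B', hB', hv⟩ := vl_le x d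
  have hl0 : 0 ≤ lenM J := (isLenM (ι := τ)).nonneg J
  refine ⟨‖vl x J‖ / (B' * (B * (lenM J + 1))), by
    have := norm_pos_iff.2 hJ
    positivity, fun p ⟨q, hq⟩ => ?_⟩
  have h1 := hfac J q hJ0 ⟨p, by rw [hq]; ring⟩ hd (lenM J + 1) (by positivity)
    (fun m => (le_lenM J m).trans (by linarith))
  have h2 := hv q (B * (lenM J + 1)) (by positivity) ⟨h1.1, h1.2⟩
  rw [div_le_iff₀ (by positivity)]
  calc ‖vl x J‖ = ‖vl x p‖ * ‖vl x q‖ := by rw [← norm_mul, ← vl_mul, ← hq]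
    _ ≤ _ := mul_le_mul_of_nonneg_left h2 (norm_nonneg _)

omit [Fintype τ] in
/-- the partial derivative -/
noncomputable def pd (o : τ) : MvPolynomial τ ℤ →+ MvPolynomial τ ℤ :=
  (MvPolynomial.pderiv (R := ℤ) o).toLinearMap.toAddMonoidHom

omit [Fintype τ] in
lemma pd_apply (o : τ) (a : MvPolynomial τ ℤ) : pd o a = MvPolynomial.pderiv o a := rfl

omit [Fintype τ] in
lemma pd_der (o : τ) : IsDer (pd o) := by
  intro x y
  rw [pd_apply, pd_apply, pd_apply, Derivation.leibniz, smul_eq_mul, smul_eq_mul]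

/-- the numerator of the derivative of `a / b` -/
noncomputable def Wr (a b : MvPolynomial τ ℤ) (o : τ) : MvPolynomial τ ℤ :=
  b * pd o a - a * pd o b

/-- the numerators of the minors of the Jacobian matrix of `a₁ / b₁`, `a₂ / b₂` -/
noncomputable def Jc (a₁ b₁ a₂ b₂ : MvPolynomial τ ℤ) (o o' : τ) : MvPolynomial τ ℤ :=
  Wr a₁ b₁ o * Wr a₂ b₂ o' - Wr a₁ b₁ o' * Wr a₂ b₂ o

omit [Fintype τ] in
lemma intCast_C (z : ℤ) : ((z : ℤ) : MvPolynomial τ ℤ) = MvPolynomial.C z := by simp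

omit [Fintype τ] in
/-- the homogenised polynomials are not zero -/
lemma hom_ne (a b : MvPolynomial τ ℤ) (hb : b ≠ 0) (o : τ) (hW : Wr a b o ≠ 0) (n : ℕ) (P : ℤ[X])
    (hP : P ≠ 0) (hPn : P.natDegree ≤ n) : hom n a b P ≠ 0 := by
  intro h0
  obtain ⟨m, Q, h1, h2⟩ := hom_min (⊥ : Ideal (MvPolynomial τ ℤ)) Ideal.isPrime_bot a b
    (by rwa [Ideal.mem_bot]) (fun z hz => by
      rw [Ideal.mem_bot]
      exact_mod_cast hz) n P hP hPn (by rw [Ideal.mem_bot]; exact h0)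
  rw [Ideal.mem_bot] at h1 h2
  have h3 := hom_deriv (pd o) (pd_der o) m a b Q
  rw [h1, map_zero, mul_zero, mul_zero, zero_mul, add_zero] at h3
  rcases mul_eq_zero.1 h3.symm with h4 | h4
  · exact h2 h4
  · exact hW h4

/-- a constant factor -/
lemma const_factor (x : τ → ℂ) (p : MvPolynomial τ ℤ) (z : ℤ) (hz : z ≠ 0)
    (h : p ∣ (z : MvPolynomial τ ℤ)) : 1 ≤ ‖vl x p‖ := by
  obtain ⟨q, hq⟩ := h
  rw [intCast_C] at hq
  have hC : (MvPolynomial.C z : MvPolynomial τ ℤ) ≠ 0 := by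
    rw [Ne, MvPolynomial.C_eq_zero]; exact hz
  have hp0 : p ≠ 0 := left_ne_zero_of_mul (by rw [← hq]; exact hC)
  have hq0 : q ≠ 0 := right_ne_zero_of_mul (by rw [← hq]; exact hC)
  obtain ⟨w, hw⟩ := Pool.Agent.H596.Q.sd_zero p (by
    rw [Pool.Agent.H596.Q.sd]
    refine Finset.sum_eq_zero fun o _ => ?_
    have h5 := MvPolynomial.degreeOf_mul_eq (n := o) hp0 hq0
    rw [← hq, MvPolynomial.degreeOf_C] at h5
    omega)
  have hw0 : w ≠ 0 := fun h0 => hp0 (by rw [hw, h0, map_zero])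
  have h5 : vl x p = w := by rw [vl, hw]; simp
  rw [h5, Complex.norm_intCast]
  exact_mod_cast Int.one_le_abs hw0

end Pool.Agent.H488.M
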