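import Pool.Agent.H488.M.RF
import Pool.Graph.R_pool_sql_team_seeded_1acbe0a2.Y39.DH.Multi

/-!
# Families of rational functions at one point
-/

set_option autoImplicit false

namespace Pool.Agent.H488.M

open Polynomial
open Pool.Agent.N743.SS (lenM isLenM lenM_eq le_lenM isLen_intCast isLen_pow)

/-- the relations: integer polynomials in one variable -/
def ok1 (d : ℕ) (H : ℝ) (P : ℤ[X]) : Prop :=
  P ≠ 0 ∧ P.natDegree ≤ d ∧ ∀ k, |((P.coeff k : ℤ) : ℝ)| ≤ H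

/-- the rational functions `a i / b i` are defined at `x`, and their gradients at `x` are nonzero and
pairwise not parallel -/
def Generic {τ : Type} {r : ℕ} (a b : Fin r → MvPolynomial τ ℤ) (x : τ → ℂ) : Prop :=
  (∀ i, vl x (b i) ≠ 0 ∧ ∃ o, vl x (Wr (a i) (b i) o) ≠ 0) ∧
    ∀ i j, i ≠ j → ∃ o o', vl x (Jc (a i) (b i) (a j) (b j) o o') ≠ 0

variable {τ : Type} [Fintype τ]

lemma exists_min {r : ℕ} (f : Fin r → Prop) (c : Fin r → ℝ) (hc : ∀ i, f i → 0 < c i) : ∃ m : ℝ,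
    0 < m ∧ m ≤ 1 ∧ ∀ i, f i → m ≤ c i := by
  classical
  have h1 : ∀ s : Finset (Fin r), ∃ m : ℝ, 0 < m ∧ m ≤ 1 ∧ ∀ i ∈ s, f i → m ≤ c i := by
    intro s
    induction s using Finset.induction_on with
    | empty => exact ⟨1, one_pos, le_rfl, by simp⟩
    | insert i s hi ih =>
      obtain ⟨m, hm, hm1, h⟩ := ih
      by_cases hf : f i
      · refine ⟨min m (c i), lt_min hm (hc i hf), (min_le_left _ _).trans hm1, fun j hj hfj => ?_⟩
        rcases Finset.mem_insert.1 hj with rfl | hj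
        · exact min_le_right _ _
        · exact (min_le_left _ _).trans (h j hj hfj)
      · refine ⟨m, hm, hm1, fun j hj hfj => ?_⟩
        rcases Finset.mem_insert.1 hj with rfl | hj
        · exact absurd hfj hf
        · exact h j hj hfj
  obtain ⟨m, hm, hm1, h⟩ := h1 Finset.univ
  exact ⟨m, hm, hm1, fun i => h i (Finset.mem_univ i)⟩

/-- the family -/
theorem rf_fam {r : ℕ} (a b : Fin r → MvPolynomial τ ℤ) (d e : ℕ) (hae : ∀ i o, (a i).degreeOf o ≤ e)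
    (hbe : ∀ i o, (b i).degreeOf o ≤ e) (κ₂ : ℕ) (c₂ : ℝ) (x : τ → ℂ) (hx : Generic a b x)
    (hsep : Sep x (d * e) κ₂ c₂) : ∃ c₁ C L : ℝ, 0 < c₁ ∧ 1 ≤ C ∧ 1 ≤ L ∧
      Fam x (d * e) 0 κ₂ c₁ c₂ C L (ok1 d) (fun i P => aeval (vl x (a i) / vl x (b i)) P)
        (fun i P => hom d (a i) (b i) P) := by
  classical
  have hL := isLenM (ι := τ)
  -- the length
  obtain ⟨Λ, hΛ⟩ : ∃ Λ : ℝ, Λ = 1 + ∑ i, (lenM (a i) + lenM (b i)) := ⟨_, rfl⟩
  have hsum : ∀ i, lenM (a i) + lenM (b i) ≤ ∑ i, (lenM (a i) + lenM (b i)) := fun i =>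
    Finset.single_le_sum (f := fun i => lenM (a i) + lenM (b i))
      (fun i _ => add_nonneg (hL.nonneg _) (hL.nonneg _)) (Finset.mem_univ i)
  have hsum0 : 0 ≤ ∑ i, (lenM (a i) + lenM (b i)) :=
    Finset.sum_nonneg fun i _ => add_nonneg (hL.nonneg _) (hL.nonneg _)
  have hΛ1 : 1 ≤ Λ := by rw [hΛ]; linarith
  have haΛ : ∀ i, lenM (a i) ≤ Λ := fun i => by
    have := hsum i; have := hL.nonneg (b i); rw [hΛ]; linarith
  have hbΛ : ∀ i, lenM (b i) ≤ Λ := fun i => by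
    have := hsum i; have := hL.nonneg (a i); rw [hΛ]; linarith
  -- the factor
  obtain ⟨L, hLd⟩ : ∃ L : ℝ, L = 1 + ∑ i, ‖vl x (b i)‖ ^ d := ⟨_, rfl⟩
  have hL1 : 1 ≤ L := by
    rw [hLd]
    have : 0 ≤ ∑ i, ‖vl x (b i)‖ ^ d := Finset.sum_nonneg fun _ _ => by positivity
    linarith
  have hbL : ∀ i, ‖vl x (b i)‖ ^ d ≤ L := fun i => by
    have := Finset.single_le_sum (f := fun i => ‖vl x (b i)‖ ^ d) (fun i _ => by positivity)
      (Finset.mem_univ i)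
    rw [hLd]; linarith
  -- the lower bounds
  choose cb hcb hcb' using fun i => factor_lb x (b i) (hx.1 i).1
  obtain ⟨m₁, hm₁, hm₁1, hm₁'⟩ := exists_min (fun _ : Fin r => True) cb (fun i _ => hcb i)
  have hJ : ∀ p : Fin r × Fin r, ∃ c : ℝ, 0 < c ∧ (p.1 ≠ p.2 → ∃ o o', ∀ q,
      q ∣ Jc (a p.1) (b p.1) (a p.2) (b p.2) o o' → c ≤ ‖vl x q‖) := by
    intro p
    by_cases hp : p.1 ≠ p.2
    · obtain ⟨o, o', ho⟩ := hx.2 p.1 p.2 hp
      obtain ⟨c, hc, hc'⟩ := factor_lb x _ ho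
      exact ⟨c, hc, fun _ => ⟨o, o', hc'⟩⟩
    · exact ⟨1, one_pos, fun h => absurd h hp⟩
  choose cj hcj hcj' using hJ
  obtain ⟨m₂, hm₂, hm₂'⟩ : ∃ m : ℝ, 0 < m ∧ ∀ p, m ≤ cj p := by
    have hne : (Finset.univ : Finset (Fin r × Fin r)).Nonempty ∨ ¬ Nonempty (Fin r × Fin r) := by
      by_cases h : Nonempty (Fin r × Fin r)
      · exact Or.inl Finset.univ_nonempty
      · exact Or.inr h
    rcases hne with h | h
    · obtain ⟨p, -, hp⟩ := Finset.exists_min_image Finset.univ cj h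
      exact ⟨cj p, hcj p, fun q => hp q (Finset.mem_univ q)⟩
    · exact ⟨1, one_pos, fun p => absurd ⟨p⟩ h⟩
  have hok0 : ∀ H P, ok1 d H P → 0 ≤ H := fun H P hP => (abs_nonneg _).trans (hP.2.2 0)
  refine ⟨min m₁ m₂, (d + 1) * Λ ^ d, L, lt_min hm₁ hm₂, ?_, hL1, ?_⟩
  · have h1 : (1 : ℝ) ≤ d + 1 := by have : (0 : ℝ) ≤ d := Nat.cast_nonneg d; linarith
    exact one_le_mul_of_one_le_of_one_le h1 (one_le_pow₀ hΛ1)
  have hval : ∀ i (P : ℤ[X]), P.natDegree ≤ d → vl x (hom d (a i) (b i) P) =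
      vl x (b i) ^ d * aeval (vl x (a i) / vl x (b i)) P := by
    intro i P hP
    have h1 := map_hom ((MvPolynomial.aeval x : MvPolynomial τ ℤ →ₐ[ℤ] ℂ) :
      MvPolynomial τ ℤ →+* ℂ) d (a i) (b i) P
    rw [← hom_field d (vl x (a i)) (vl x (b i)) (hx.1 i).1 P hP]
    exact h1
  constructor
  · intro i H P hP
    obtain ⟨o, ho⟩ := (hx.1 i).2
    refine hom_ne (a i) (b i) (fun h => (hx.1 i).1 (by rw [h, vl, map_zero])) o
      (fun h => ho (by rw [h, vl, map_zero])) d P hP.1 hP.2.1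
  · intro i H P hH hP
    refine ⟨fun o => degreeOf_hom d e (a i) (b i) o (hae i o) (hbe i o) P, fun m => ?_⟩
    exact (le_lenM _ m).trans (len_hom d (a i) (b i) Λ hΛ1 (haΛ i) (hbΛ i) P H hP.2.2)
  · intro i H P hP
    rw [hval i P hP.2.1, norm_mul, norm_pow]
    exact mul_le_mul_of_nonneg_right (hbL i) (norm_nonneg _)
  · intro i H P hP h0
    rw [hval i P hP.2.1] at h0
    rcases mul_eq_zero.1 h0 with h1 | h1
    · exact absurd h1 (pow_ne_zero _ (hx.1 i).1)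
    · exact h1
  · intro i j hij H H' P Q hP hQ p hp hpP hpQ Y hY hpY
    rw [pow_zero, one_mul]
    by_cases hb1 : p ∣ b i
    · exact (min_le_left _ _).trans ((hm₁' i trivial).trans (hcb' i p hb1))
    by_cases hb2 : p ∣ b j
    · exact (min_le_left _ _).trans ((hm₁' j trivial).trans (hcb' j p hb2))
    by_cases hz : ∃ z : ℤ, z ≠ 0 ∧ p ∣ ((z : ℤ) : MvPolynomial τ ℤ)
    · obtain ⟨z, hz0, hz⟩ := hz
      exact (min_le_left _ _).trans (hm₁1.trans (const_factor x p z hz0 hz))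
    push Not at hz
    obtain ⟨o, o', ho⟩ := hcj' (i, j) hij
    refine (min_le_right _ _).trans ((hm₂' (i, j)).trans (ho p ?_))
    exact jac_mem p hp.prime (pd o) (pd o') (pd_der o) (pd_der o') (a i) (b i) (a j) (b j) hb1 hb2
      hz d d P Q hP.1 hQ.1 hP.2.1 hQ.2.1 hpP hpQ
  · exact hsep

/-- **Families of rational functions: the joint measure and the dichotomy.** -/
theorem rf_main {σ : Type} [Fintype σ] (θ : σ → ℂ) (hθ : Meas θ) {r : ℕ}
    (a b : Fin r → MvPolynomial (Option σ) ℤ) (d A : ℕ) : ∃ κ w : ℕ, ∀ t : ℂ,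
      Generic a b (pt t θ) →
      (∃ c : ℝ, 0 < c ∧ ∀ i j, i ≠ j → ∀ P Q, ∀ H : ℝ, 1 ≤ H → ok1 d H P → ok1 d H Q →
        c ≤ H ^ κ * max ‖aeval (vl (pt t θ) (a i) / vl (pt t θ) (b i)) P‖
          ‖aeval (vl (pt t θ) (a j) / vl (pt t θ) (b j)) Q‖) ∧
      ∃ H₀ : ℝ, 1 ≤ H₀ ∧ ∀ i, ∀ H : ℝ, H₀ ≤ H →
        Nr (ok1 d) (fun i P => aeval (vl (pt t θ) (a i) / vl (pt t θ) (b i)) P) w H i →
        ((∃ P, ok1 d H P ∧ aeval (vl (pt t θ) (a i) / vl (pt t θ) (b i)) P = 0) ∧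
          ∀ Y : ℝ, H ≤ Y → ∀ j, j ≠ i →
            ¬ Nr (ok1 d) (fun i P => aeval (vl (pt t θ) (a i) / vl (pt t θ) (b i)) P) w Y j) ∨
        ∃ Z : ℝ, H ≤ Z ∧
          (∀ Y : ℝ, H ≤ Y → Y ≤ Z → ∀ j, j ≠ i →
            ¬ Nr (ok1 d) (fun i P => aeval (vl (pt t θ) (a i) / vl (pt t θ) (b i)) P) w Y j) ∧
          ∀ Y : ℝ, Z < Y → Y ≤ Z ^ A → ∀ j,
            ¬ Nr (ok1 d) (fun i P => aeval (vl (pt t θ) (a i) / vl (pt t θ) (b i)) P) w Y j := by
  classical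
  obtain ⟨e, he⟩ : ∃ e : ℕ, ∀ i o, (a i).degreeOf o ≤ e ∧ (b i).degreeOf o ≤ e := by
    refine ⟨∑ i, ∑ o, ((a i).degreeOf o + (b i).degreeOf o), fun i o => ?_⟩
    have h1 : (a i).degreeOf o + (b i).degreeOf o ≤ ∑ o, ((a i).degreeOf o + (b i).degreeOf o) :=
      Finset.single_le_sum (f := fun o => (a i).degreeOf o + (b i).degreeOf o)
        (fun _ _ => Nat.zero_le _) (Finset.mem_univ o)
    have h2 : ∑ o, ((a i).degreeOf o + (b i).degreeOf o) ≤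
        ∑ i, ∑ o, ((a i).degreeOf o + (b i).degreeOf o) :=
      Finset.single_le_sum (f := fun i => ∑ o, ((a i).degreeOf o + (b i).degreeOf o))
        (fun _ _ => Nat.zero_le _) (Finset.mem_univ i)
    omega
  obtain ⟨κ₂, hs⟩ := sep_pt θ hθ (d * e)
  refine ⟨(0 + κ₂) * nf (Option σ) (d * e), wexp (Option σ) (d * e) 0 κ₂ A, fun t ht => ?_⟩
  obtain ⟨c₂, hc₂, hs⟩ := hs ‖t‖
  obtain ⟨c₁, C, L, hc₁, hC, hL, hF⟩ := rf_fam a b d e (fun i o => (he i o).1) (fun i o => (he i o).2)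
    κ₂ c₂ (pt t θ) ht (hs t le_rfl)
  constructor
  · obtain ⟨c, hc, h⟩ := ab_joint (Option σ) (d * e) 0 κ₂ c₁ c₂ C L hc₁ hc₂ hC hL
    exact ⟨c, hc, fun i j hij P Q H hH hP hQ => h _ _ _ _ _ _ hF i j hij P Q H hH hP hQ⟩
  · obtain ⟨H₀, hH₀, h⟩ := ab_dich (Option σ) (d * e) 0 κ₂ A c₁ c₂ C L hc₁ hc₂ hC hL
    exact ⟨H₀, hH₀, fun i H hH hn => h _ _ _ _ _ _ hF i H hH hn⟩

open Pool.Agent.Y39.DG Pool.Agent.Y39.DH

/-- simultaneous approximation of two real numbers with a joint measure -/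
lemma simul (u v : ℝ) (κ : ℕ) (c : ℝ) (hc : 0 < c)
    (h : ∀ P Q : ℤ[X], ∀ H : ℝ, 1 ≤ H → ok1 1 H P → ok1 1 H Q →
      c ≤ H ^ κ * max ‖aeval (u : ℂ) P‖ ‖aeval (v : ℂ) Q‖) :
    ∃ c0 : ℝ, 0 < c0 ∧ Simultaneous ![u, v] ((κ : ℝ) + 2) c0 := by
  obtain ⟨T, hT⟩ : ∃ T : ℝ, T = |u| + |v| + 1 := ⟨_, rfl⟩
  have hT1 : 1 ≤ T := by rw [hT]; have := abs_nonneg u; have := abs_nonneg v; linarith
  refine ⟨min 1 (c / T ^ κ), lt_min one_pos (by positivity), fun q hq p => ?_⟩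
  have hq1 : (1 : ℝ) ≤ q := by exact_mod_cast hq
  have hq0 : (0 : ℝ) < q := by linarith
  have hpow : (q : ℝ) ^ ((κ : ℝ) + 2 - 1) = (q : ℝ) ^ (κ + 1) := by
    rw [← Real.rpow_natCast]; congr 1; push_cast; ring
  rw [hpow]
  by_cases hbig : ∃ j : Fin 2, 1 ≤ |(q : ℝ) * (![u, v] : Fin 2 → ℝ) j - p j|
  · obtain ⟨j, hj⟩ := hbig
    exact ⟨j, (min_le_left _ _).trans (one_le_mul_of_one_le_of_one_le (one_le_pow₀ hq1) hj)⟩
  push Not at hbig
  have hp : ∀ j, |(p j : ℝ)| ≤ T * q := by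
    intro j
    have h1 := hbig j
    have h2 : |(p j : ℝ)| ≤ |(q : ℝ) * (![u, v] : Fin 2 → ℝ) j| + 1 := by
      have := abs_sub_abs_le_abs_sub (p j : ℝ) ((q : ℝ) * (![u, v] : Fin 2 → ℝ) j)
      rw [abs_sub_comm] at this
      linarith
    have h3 : |(![u, v] : Fin 2 → ℝ) j| ≤ |u| + |v| := by
      fin_cases j
      · show |u| ≤ _
        have := abs_nonneg v; linarith
      · show |v| ≤ _
        have := abs_nonneg u; linarith
    rw [abs_mul, abs_of_pos hq0] at h2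
    rw [hT]
    nlinarith
  have key : ∀ j, ok1 1 (T * q) (C (q : ℤ) * X - C (p j)) ∧
      ‖aeval (((![u, v] : Fin 2 → ℝ) j : ℝ) : ℂ) (C (q : ℤ) * X - C (p j))‖ =
        |(q : ℝ) * (![u, v] : Fin 2 → ℝ) j - p j| := by
    intro j
    refine ⟨⟨?_, ?_, fun k => ?_⟩, ?_⟩
    · intro h0
      have := congrArg (fun P : ℤ[X] => P.coeff 1) h0
      simp only [coeff_sub, coeff_C_mul, coeff_X_one, coeff_C_succ, coeff_zero, mul_one,
        sub_zero] at this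
      have : (q : ℤ) = 0 := this
      omega
    · refine (natDegree_sub_le _ _).trans (max_le ?_ ?_)
      · exact (natDegree_C_mul_le _ _).trans natDegree_X_le
      · rw [natDegree_C]; exact Nat.zero_le _
    · rw [coeff_sub, coeff_C_mul, coeff_X, coeff_C]
      rcases k with _ | _ | k
      · simpa using hp j
      · simp
        nlinarith
      · simp
        positivity
    · rw [map_sub, map_mul, aeval_C, aeval_C, aeval_X]
      have h1 : (algebraMap ℤ ℂ) (q : ℤ) * (((![u, v] : Fin 2 → ℝ) j : ℝ) : ℂ) -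
          (algebraMap ℤ ℂ) (p j) = (((q : ℝ) * (![u, v] : Fin 2 → ℝ) j - p j : ℝ) : ℂ) := by
        push_cast
        simp
      rw [h1, Complex.norm_real, Real.norm_eq_abs]
  have h1 := h (C (q : ℤ) * X - C (p 0)) (C (q : ℤ) * X - C (p 1)) (T * q)
    (one_le_mul_of_one_le_of_one_le hT1 hq1) (key 0).1 (key 1).1
  have e0 := (key 0).2
  have e1 := (key 1).2
  simp only [Matrix.cons_val_zero, Matrix.cons_val_one] at e0 e1
  rw [e0, e1, mul_pow] at h1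
  have h2 : c / T ^ κ ≤ (q : ℝ) ^ κ * max |(q : ℝ) * u - p 0| |(q : ℝ) * v - p 1| := by
    rw [div_le_iff₀ (by positivity)]
    calc c ≤ T ^ κ * (q : ℝ) ^ κ * max |(q : ℝ) * u - p 0| |(q : ℝ) * v - p 1| := h1
      _ = _ := by ring
  rcases le_total |(q : ℝ) * u - p 0| |(q : ℝ) * v - p 1| with h3 | h3
  · refine ⟨1, (min_le_right _ _).trans (h2.trans ?_)⟩
    rw [max_eq_right h3]
    exact mul_le_mul_of_nonneg_right (pow_le_pow_right₀ hq1 (Nat.le_succ _)) (abs_nonneg _)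
  · refine ⟨0, (min_le_right _ _).trans (h2.trans ?_)⟩
    rw [max_eq_left h3]
    exact mul_le_mul_of_nonneg_right (pow_le_pow_right₀ hq1 (Nat.le_succ _)) (abs_nonneg _)

/-- the digits of two real numbers with a joint measure -/
lemma two_digits (u v : ℝ) (κ : ℕ) (c : ℝ) (hc : 0 < c)
    (h : ∀ P Q : ℤ[X], ∀ H : ℝ, 1 ≤ H → ok1 1 H P → ok1 1 H Q →
      c ≤ H ^ κ * max ‖aeval (u : ℂ) P‖ ‖aeval (v : ℂ) Q‖) :
    ∃ K : ℝ, ∀ b : ℕ, 2 ≤ b → ∀ L : ℕ,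
      (L : ℝ) ≤ 2 * ((κ : ℝ) + 2) * (complexity b u L + complexity b v L) + K := by
  obtain ⟨c0, hc0, hS⟩ := simul u v κ c hc h
  have hκ : (1 : ℝ) < (κ : ℝ) + 2 := by have : (0 : ℝ) ≤ κ := Nat.cast_nonneg κ; linarith
  obtain ⟨C, hC0, hC⟩ := complexities _ c0 hκ hc0 _ hS
  obtain ⟨K, hK0, hK⟩ := F_linear C 1 hC0 one_pos
  refine ⟨((κ : ℝ) + 2) * K, fun b hb L => ?_⟩
  have h1 := (hC b hb L).1
  have h2 := hK (∑ j, complexity b ((![u, v] : Fin 2 → ℝ) j) L)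
  have h3 : ((∑ j, complexity b ((![u, v] : Fin 2 → ℝ) j) L : ℕ) : ℝ) =
      complexity b u L + complexity b v L := by
    rw [Fin.sum_univ_two]
    push_cast
    rfl
  rw [h3] at h2
  have h4 := mul_le_mul_of_nonneg_left h2 (by linarith : (0 : ℝ) ≤ (κ : ℝ) + 2)
  linarith

end Pool.Agent.H488.M
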