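import Pool.Agent.H488.M.Sc

/-!
# Polynomials in `t θ^m` and in the other numbers
-/

set_option autoImplicit false

namespace Pool.Agent.H488.M

variable {ι ρ : Type} [Fintype ι] [Fintype ρ]

/-- the monomial which corresponds to the monomial `μ` -/
noncomputable def em (d : ℕ) (m : ι → ℤ) (μ : Option ρ →₀ ℕ) : Option (ι ⊕ ρ) →₀ ℕ :=
  Finsupp.equivFunOnFinite.symm fun o => match o with
    | none => μ none
    | some (Sum.inl i) => (m i).toNat * μ none + (-m i).toNat * (d - μ none)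
    | some (Sum.inr j) => μ (some j)

lemma em_none (d : ℕ) (m : ι → ℤ) (μ : Option ρ →₀ ℕ) : em d m μ none = μ none := rfl

lemma em_inl (d : ℕ) (m : ι → ℤ) (μ : Option ρ →₀ ℕ) (i : ι) : em d m μ (some (Sum.inl i)) =
    (m i).toNat * μ none + (-m i).toNat * (d - μ none) := rfl

lemma em_inr (d : ℕ) (m : ι → ℤ) (μ : Option ρ →₀ ℕ) (j : ρ) :
    em d m μ (some (Sum.inr j)) = μ (some j) := rfl

lemma em_inj (d : ℕ) (m : ι → ℤ) (μ μ' : Option ρ →₀ ℕ) (h : em d m μ = em d m μ') : μ = μ' := by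
  ext o
  rcases o with _ | j
  · exact DFunLike.congr_fun h none
  · exact DFunLike.congr_fun h (some (Sum.inr j))

/-- the polynomial `θ^(d m⁻) P(T θ^m, Y)` -/
noncomputable def tr (d : ℕ) (m : ι → ℤ) (P : MvPolynomial (Option ρ) ℤ) :
    MvPolynomial (Option (ι ⊕ ρ)) ℤ :=
  ∑ μ ∈ P.support, MvPolynomial.monomial (em d m μ) (P.coeff μ)

lemma tr_coeff (d : ℕ) (m : ι → ℤ) (P : MvPolynomial (Option ρ) ℤ) (μ : Option ρ →₀ ℕ) :
    (tr d m P).coeff (em d m μ) = P.coeff μ := by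
  classical
  rw [tr, MvPolynomial.coeff_sum]
  simp only [MvPolynomial.coeff_monomial]
  rw [Finset.sum_congr rfl (g := fun μ' => if μ' = μ then P.coeff μ' else 0) (fun μ' _ => by
    by_cases h : μ' = μ
    · rw [if_pos h, if_pos (by rw [h])]
    · rw [if_neg h, if_neg (fun h' => h (em_inj d m μ' μ h'))])]
  rw [Finset.sum_ite_eq']
  split_ifs with h
  · rfl
  · exact (MvPolynomial.notMem_support_iff.1 h).symm

lemma tr_support (d : ℕ) (m : ι → ℤ) (P : MvPolynomial (Option ρ) ℤ) (ν : Option (ι ⊕ ρ) →₀ ℕ)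
    (hν : ν ∈ (tr d m P).support) : ∃ μ ∈ P.support, em d m μ = ν := by
  classical
  rw [MvPolynomial.mem_support_iff, tr, MvPolynomial.coeff_sum] at hν
  obtain ⟨μ, hμ, h⟩ := Finset.exists_ne_zero_of_sum_ne_zero hν
  refine ⟨μ, hμ, ?_⟩
  rw [MvPolynomial.coeff_monomial] at h
  by_contra hne
  exact h (if_neg hne)

lemma tr_ne (d : ℕ) (m : ι → ℤ) (P : MvPolynomial (Option ρ) ℤ) (hP : P ≠ 0) : tr d m P ≠ 0 := by
  intro h0
  apply hP
  ext μ
  rw [← tr_coeff d m P μ, h0, MvPolynomial.coeff_zero, MvPolynomial.coeff_zero]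

lemma tr_Bd (d M : ℕ) (m : ι → ℤ) (hm : ∀ i, |m i| ≤ M) (P : MvPolynomial (Option ρ) ℤ) (H : ℝ)
    (hP : Bd d H P) (hH : 0 ≤ H) : Bd (d + M * d) H (tr d m P) := by
  classical
  refine ⟨fun o => ?_, fun ν => ?_⟩
  · rw [MvPolynomial.degreeOf_le_iff]
    intro ν hν
    obtain ⟨μ, hμ, rfl⟩ := tr_support d m P ν hν
    have h1 := (MvPolynomial.degreeOf_le_iff.1 (hP.1 none)) μ hμ
    rcases o with _ | (i | j)
    · rw [em_none]
      omega
    · rw [em_inl]
      have h2 : (m i).toNat + (-m i).toNat ≤ M := by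
        have := hm i
        rw [abs_le] at this
        omega
      have h3 : (m i).toNat * μ none ≤ (m i).toNat * d := Nat.mul_le_mul_left _ h1
      have h4 : (-m i).toNat * (d - μ none) ≤ (-m i).toNat * d := Nat.mul_le_mul_left _ (Nat.sub_le _ _)
      have h5 : ((m i).toNat + (-m i).toNat) * d ≤ M * d := Nat.mul_le_mul_right _ h2
      nlinarith
    · rw [em_inr]
      have h1 := (MvPolynomial.degreeOf_le_iff.1 (hP.1 (some j))) μ hμ
      omega
  · by_cases hν : ν ∈ (tr d m P).support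
    · obtain ⟨μ, hμ, rfl⟩ := tr_support d m P ν hν
      rw [tr_coeff]
      exact hP.2 μ
    · rw [MvPolynomial.notMem_support_iff.1 hν]
      simpa using hH

/-- the number `t θ^m` -/
noncomputable def um (t : ℂ) (θ : ι → ℂ) (m : ι → ℤ) : ℂ := t * ∏ i, θ i ^ m i

lemma aeval_eq_sum {κ : Type} [Fintype κ] (x : κ → ℂ) (P : MvPolynomial κ ℤ) :
    MvPolynomial.aeval x P = ∑ μ ∈ P.support, ((P.coeff μ : ℤ) : ℂ) * ∏ i, x i ^ μ i := by
  rw [MvPolynomial.aeval_eq_eval₂Hom, MvPolynomial.coe_eval₂Hom, MvPolynomial.eval₂_eq']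
  rfl

lemma tr_val (d : ℕ) (m : ι → ℤ) (t : ℂ) (θ : ι → ℂ) (hθ : ∀ i, θ i ≠ 0) (η : ρ → ℂ)
    (P : MvPolynomial (Option ρ) ℤ) (hP : P.degreeOf none ≤ d) :
    vl (pt t (Sum.elim θ η)) (tr d m P) =
      (∏ i, θ i ^ ((-m i).toNat * d)) * vl (pt (um t θ m) η) P := by
  classical
  rw [vl, vl, aeval_eq_sum (pt (um t θ m) η) P, tr, map_sum, Finset.mul_sum]
  refine Finset.sum_congr rfl fun μ hμ => ?_
  have h1 := (MvPolynomial.degreeOf_le_iff.1 hP) μ hμ
  rw [MvPolynomial.aeval_monomial, Finsupp.prod_fintype _ _ (fun i => pow_zero _),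
    Fintype.prod_option, Fintype.prod_sum_type, Fintype.prod_option]
  have e1 : ∀ i, pt t (Sum.elim θ η) (some (Sum.inl i)) ^ (em d m μ (some (Sum.inl i))) =
      θ i ^ ((-m i).toNat * d) * (θ i ^ m i) ^ (μ none) := by
    intro i
    have h2 : pt t (Sum.elim θ η) (some (Sum.inl i)) = θ i := rfl
    rw [h2, em_inl, ← zpow_natCast, ← zpow_natCast, ← zpow_natCast, ← zpow_mul,
      ← zpow_add₀ (hθ i)]
    congr 1
    push_cast [Nat.cast_sub h1]
    rcases le_total 0 (m i) with h3 | h3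
    · have e2 : (((m i).toNat : ℕ) : ℤ) = m i := by omega
      have e3 : (((-m i).toNat : ℕ) : ℤ) = 0 := by omega
      rw [e2, e3]; ring
    · have e2 : (((m i).toNat : ℕ) : ℤ) = 0 := by omega
      have e3 : (((-m i).toNat : ℕ) : ℤ) = -m i := by omega
      rw [e2, e3]; ring
  have e2 : ∀ j, pt t (Sum.elim θ η) (some (Sum.inr j)) ^ (em d m μ (some (Sum.inr j))) =
      pt (um t θ m) η (some j) ^ μ (some j) := fun j => rfl
  have e3 : pt t (Sum.elim θ η) none ^ (em d m μ none) = t ^ μ none := rfl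
  have e4 : pt (um t θ m) η none ^ μ none = t ^ μ none * ∏ i, (θ i ^ m i) ^ (μ none) := by
    show (um t θ m) ^ μ none = _
    rw [um, mul_pow, Finset.prod_pow]
  rw [Finset.prod_congr rfl fun i _ => e1 i, Finset.prod_congr rfl fun j _ => e2 j, e3, e4,
    Finset.prod_mul_distrib]
  have e5 : (algebraMap ℤ ℂ) (P.coeff μ) = ((P.coeff μ : ℤ) : ℂ) := rfl
  rw [e5]
  ring

omit [Fintype ι] [Fintype ρ] in
/-- weights -/
lemma tr_wt [Fintype ι] [Fintype ρ] [DecidableEq ι] (d : ℕ) (m : ι → ℤ)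
    (P : MvPolynomial (Option ρ) ℤ) (hP : P.degreeOf none ≤ d) (i : ι)
    (ν : Option (ι ⊕ ρ) →₀ ℕ) (hν : ν ∈ (tr d m P).support) :
    wt (fun o => match o with
      | none => -m i
      | some (Sum.inl i') => if i' = i then 1 else 0
      | some (Sum.inr _) => 0) ν = (-m i).toNat * d := by
  obtain ⟨μ, hμ, rfl⟩ := tr_support d m P ν hν
  have h1 := (MvPolynomial.degreeOf_le_iff.1 hP) μ hμ
  rw [wt, Fintype.sum_option, Fintype.sum_sum_type]
  simp only [zero_mul, Finset.sum_const_zero, add_zero, ite_mul, one_mul, Finset.sum_ite_eq',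
    Finset.mem_univ, if_true]
  rw [em_none, em_inl]
  push_cast [Nat.cast_sub h1]
  rcases le_total 0 (m i) with h3 | h3
  · have e2 : (((m i).toNat : ℕ) : ℤ) = m i := by omega
    have e3 : (((-m i).toNat : ℕ) : ℤ) = 0 := by omega
    rw [e2, e3]; ring
  · have e2 : (((m i).toNat : ℕ) : ℤ) = 0 := by omega
    have e3 : (((-m i).toNat : ℕ) : ℤ) = -m i := by omega
    rw [e2, e3]; ring

/-- a common factor depends on `T` by a power of `T` only -/
lemma tr_common (d : ℕ) (m m' : ι → ℤ) (hmm : m ≠ m') (P Q : MvPolynomial (Option ρ) ℤ)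
    (hP0 : P ≠ 0) (hQ0 : Q ≠ 0)
    (hP : P.degreeOf none ≤ d) (hQ : Q.degreeOf none ≤ d) (p : MvPolynomial (Option (ι ⊕ ρ)) ℤ)
    (hp : Irreducible p) (h1 : p ∣ tr d m P) (h2 : p ∣ tr d m' Q) :
    ∃ a : ℕ, ∀ ν ∈ p.support, ν none = a := by
  classical
  obtain ⟨i, hi⟩ := Function.ne_iff.1 hmm
  obtain ⟨c₁, hc₁⟩ := homog_factor _ (tr d m P) (tr_ne d m P hP0) _ (tr_wt d m P hP i) p hp h1
  obtain ⟨c₂, hc₂⟩ := homog_factor _ (tr d m' Q) (tr_ne d m' Q hQ0) _ (tr_wt d m' Q hQ i) p hp h2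
  have key : ∀ ν ∈ p.support, (m' i - m i) * (ν none : ℤ) = c₁ - c₂ := by
    intro ν hν
    have e1 := hc₁ ν hν
    have e2 := hc₂ ν hν
    rw [wt, Fintype.sum_option, Fintype.sum_sum_type] at e1 e2
    simp only [zero_mul, Finset.sum_const_zero, add_zero, ite_mul, one_mul, Finset.sum_ite_eq',
      Finset.mem_univ, if_true] at e1 e2
    linear_combination e1 - e2
  obtain ⟨ν₀, hν₀⟩ : p.support.Nonempty := by
    rw [MvPolynomial.support_nonempty]; exact hp.ne_zero
  refine ⟨ν₀ none, fun ν hν => ?_⟩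
  have e1 := key ν hν
  have e2 := key ν₀ hν₀
  have e3 : (m' i - m i) * ((ν none : ℤ) - ν₀ none) = 0 := by linear_combination e1 - e2
  rcases mul_eq_zero.1 e3 with e4 | e4
  · exfalso; apply hi; omega
  · omega

/-- the value of a polynomial which depends on `T` by a power of `T` only -/
lemma pow_val {σ : Type} [Fintype σ] (t : ℂ) (θ : σ → ℂ) (p : MvPolynomial (Option σ) ℤ) (hp : p ≠ 0)
    (a : ℕ) (ha : ∀ ν ∈ p.support, ν none = a) (d : ℕ) (H : ℝ) (hB : Bd d H p) :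
    a ≤ d ∧ ∃ p' : MvPolynomial σ ℤ, p' ≠ 0 ∧ Bd d H p' ∧
      vl (pt t θ) p = t ^ a * MvPolynomial.aeval θ p' := by
  classical
  obtain ⟨ν₀, hν₀⟩ : p.support.Nonempty := by
    rw [MvPolynomial.support_nonempty]; exact hp
  refine ⟨by rw [← ha ν₀ hν₀]; exact (MvPolynomial.degreeOf_le_iff.1 (hB.1 none)) ν₀ hν₀,
    (MvPolynomial.optionEquivLeft ℤ σ p).coeff a, ?_, ⟨fun i => ?_, fun m => ?_⟩, ?_⟩
  · intro h0
    have h1 : (MvPolynomial.optionEquivLeft ℤ σ p) ≠ 0 := by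
      rw [Ne, EmbeddingLike.map_eq_zero_iff]; exact hp
    apply h1
    ext k m
    rw [Polynomial.coeff_zero, MvPolynomial.coeff_zero]
    by_cases hk : k = a
    · rw [hk, h0, MvPolynomial.coeff_zero]
    · rw [MvPolynomial.optionEquivLeft_coeff_coeff]
      by_contra hne
      have h2 := ha _ (MvPolynomial.mem_support_iff.2 hne)
      apply hk
      rw [← h2]
      simp
  · rw [MvPolynomial.degreeOf_le_iff]
    intro m hm
    rw [MvPolynomial.mem_support_coeff_optionEquivLeft] at hm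
    have h1 := (MvPolynomial.degreeOf_le_iff.1 (hB.1 (some i))) _ hm
    simpa using h1
  · rw [MvPolynomial.optionEquivLeft_coeff_coeff]
    exact hB.2 _
  · rw [vl_eq, Polynomial.eval_eq_sum, Polynomial.sum_def]
    have hsub : ((MvPolynomial.optionEquivLeft ℤ σ p).map
      ((MvPolynomial.aeval θ : MvPolynomial σ ℤ →ₐ[ℤ] ℂ) : MvPolynomial σ ℤ →+* ℂ)).support ⊆ {a} := by
      intro k hk
      rw [Finset.mem_singleton]
      rw [Polynomial.mem_support_iff, Polynomial.coeff_map] at hk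
      by_contra hne
      apply hk
      have h0 : (MvPolynomial.optionEquivLeft ℤ σ p).coeff k = 0 := by
        ext m
        rw [MvPolynomial.coeff_zero, MvPolynomial.optionEquivLeft_coeff_coeff]
        by_contra hne'
        have h2 := ha _ (MvPolynomial.mem_support_iff.2 hne')
        apply hne
        rw [← h2]
        simp
      rw [h0, map_zero]
    rw [Finset.sum_subset hsub (fun k _ hk => by
      rw [Polynomial.notMem_support_iff.1 hk, zero_mul]), Finset.sum_singleton,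
      Polynomial.coeff_map, mul_comm]
    rfl

end Pool.Agent.H488.M
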